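import Pool.Agent.Helper36.DC.Defs

/-!
# Concatenation of digits
-/

namespace Pool.Agent.Helper36.DC

theorem s_mul_add (b m r : ℕ) (hb : 2 ≤ b) (hr : r < b) :
    s b (b * m + r) = s b m + r := by
  unfold s
  rcases Nat.eq_zero_or_pos (b * m + r) with h0 | hpos
  · have hr0 : r = 0 := by omega
    have hm : b * m = 0 := by omega
    have hm0 : m = 0 := by
      rcases Nat.mul_eq_zero.mp hm with h | h
      · omega
      · exact h
    subst hr0
    subst hm0
    simp
  · rw [Nat.digits_def' (by omega) hpos, List.sum_cons]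
    have h1 : (b * m + r) % b = r := by
      rw [Nat.mul_add_mod, Nat.mod_eq_of_lt hr]
    have h2 : (b * m + r) / b = m := by
      rw [Nat.mul_add_div (by omega), Nat.div_eq_of_lt hr, Nat.add_zero]
    rw [h1, h2]
    omega

theorem s_zero (b : ℕ) : s b 0 = 0 := by
  unfold s
  simp

theorem s_concat (b k m r : ℕ) (hb : 2 ≤ b) (hr : r < b ^ k) :
    s b (b ^ k * m + r) = s b m + s b r := by
  induction k generalizing r with
  | zero =>
    have h0 : r = 0 := by
      rw [pow_zero] at hr
      omega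
    subst h0
    simp [s_zero]
  | succ k ih =>
    have hbpos : 0 < b := by omega
    have hr0 : r % b < b := Nat.mod_lt _ hbpos
    have hr1 : r / b < b ^ k := by
      rw [Nat.div_lt_iff_lt_mul hbpos]
      rw [pow_succ] at hr
      exact hr
    have hsplit : r = b * (r / b) + r % b := (Nat.div_add_mod r b).symm
    have h1 : b ^ (k + 1) * m + r = b * (b ^ k * m + r / b) + r % b := by
      conv_lhs => rw [hsplit]
      ring
    have h2 : s b r = s b (r / b) + r % b := by
      conv_lhs => rw [hsplit]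
      exact s_mul_add b _ _ hb hr0
    rw [h1, s_mul_add b _ _ hb hr0, ih _ hr1, h2]
    omega

theorem s_le (b k r : ℕ) (hb : 2 ≤ b) (hr : r < b ^ k) : s b r ≤ (b - 1) * k := by
  induction k generalizing r with
  | zero =>
    have h0 : r = 0 := by
      rw [pow_zero] at hr
      omega
    subst h0
    simp [s_zero]
  | succ k ih =>
    have hbpos : 0 < b := by omega
    have hr0 : r % b < b := Nat.mod_lt _ hbpos
    have hr1 : r / b < b ^ k := by
      rw [Nat.div_lt_iff_lt_mul hbpos]
      rw [pow_succ] at hr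
      exact hr
    have hsplit : r = b * (r / b) + r % b := (Nat.div_add_mod r b).symm
    have h2 : s b r = s b (r / b) + r % b := by
      conv_lhs => rw [hsplit]
      exact s_mul_add b _ _ hb hr0
    have h3 := ih _ hr1
    rw [h2, Nat.mul_succ]
    omega

theorem d_concat (i j q r : ℕ) (h2 : r < 2 ^ i) (h3 : r < 3 ^ j) :
    d (2 ^ i * 3 ^ j * q + r) = (s 2 (3 ^ j * q) : ℤ) - (s 3 (2 ^ i * q) : ℤ) + d r := by
  unfold d
  have e2 : s 2 (2 ^ i * 3 ^ j * q + r) = s 2 (3 ^ j * q) + s 2 r := by
    rw [show 2 ^ i * 3 ^ j * q + r = 2 ^ i * (3 ^ j * q) + r by ring]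
    exact s_concat 2 i _ r le_rfl h2
  have e3 : s 3 (2 ^ i * 3 ^ j * q + r) = s 3 (2 ^ i * q) + s 3 r := by
    rw [show 2 ^ i * 3 ^ j * q + r = 3 ^ j * (2 ^ i * q) + r by ring]
    exact s_concat 3 j _ r (by norm_num) h3
  rw [e2, e3]
  push_cast
  ring

end Pool.Agent.Helper36.DC
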