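import Pool.Agent.Helper36.DC.Defs

/-!
DC-2: generating function and second moment of the sum of digits.
-/

namespace Pool.Agent.Helper36.DC

namespace Moment

theorem s_zero (b : ℕ) : s b 0 = 0 := by simp [s]

theorem s_mul_add (b m r : ℕ) (hb : 2 ≤ b) (hr : r < b) : s b (b * m + r) = s b m + r := by
  by_cases h : r ≠ 0 ∨ m ≠ 0
  · rw [s, s, add_comm (b * m) r, Nat.digits_add b (by omega) r m hr h, List.sum_cons, add_comm]
  · have h1 : r = 0 := by omega
    have h2 : m = 0 := by omega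
    subst h1
    subst h2
    simp [s]

theorem sum_range_mul' {R : Type*} [AddCommMonoid R] (b M : ℕ) (f : ℕ → R) :
    ∑ n ∈ Finset.range (b * M), f n =
      ∑ m ∈ Finset.range M, ∑ r ∈ Finset.range b, f (b * m + r) := by
  induction M with
  | zero => simp
  | succ M ih => rw [Nat.mul_succ, Finset.sum_range_add, ih, Finset.sum_range_succ]

theorem sum_one (n : ℕ) (c : ℤ) :
    ∑ r ∈ Finset.range n, (2 * (r : ℤ) - c) = n * (n - 1) - n * c := by
  induction n with
  | zero => simp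
  | succ n ih => rw [Finset.sum_range_succ, ih]; push_cast; ring

theorem sum_two (n : ℕ) (c : ℤ) :
    3 * ∑ r ∈ Finset.range n, (2 * (r : ℤ) - c) ^ 2 =
      2 * n * (n - 1) * (2 * n - 1) - 6 * c * (n * (n - 1)) + 3 * c ^ 2 * n := by
  induction n with
  | zero => simp
  | succ n ih => rw [Finset.sum_range_succ, mul_add, ih]; push_cast; ring

end Moment

open Moment

theorem sum_pow_digits (b K : ℕ) (hb : 2 ≤ b) (x : ℝ) :
    ∑ n ∈ Finset.range (b ^ K), x ^ (s b n) = (∑ r ∈ Finset.range b, x ^ r) ^ K := by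
  induction K with
  | zero => simp [s_zero]
  | succ K ih =>
    rw [pow_succ', sum_range_mul', pow_succ, ← ih, Finset.sum_mul]
    refine Finset.sum_congr rfl fun m _ => ?_
    rw [Finset.mul_sum]
    refine Finset.sum_congr rfl fun r hr => ?_
    rw [s_mul_add b m r hb (Finset.mem_range.mp hr), pow_add]

theorem moment (b K : ℕ) (hb : 2 ≤ b) :
    3 * ∑ n ∈ Finset.range (b ^ K), (2 * (s b n : ℤ) - ((b : ℤ) - 1) * K) ^ 2
      = K * ((b : ℤ) ^ 2 - 1) * (b : ℤ) ^ K := by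
  induction K with
  | zero => simp [s_zero]
  | succ K ih =>
    rw [pow_succ' b K, sum_range_mul']
    have h1 : ∀ m ∈ Finset.range (b ^ K), ∑ r ∈ Finset.range b,
        (2 * (s b (b * m + r) : ℤ) - ((b : ℤ) - 1) * ((K + 1 : ℕ) : ℤ)) ^ 2 =
        b * (2 * (s b m : ℤ) - ((b : ℤ) - 1) * K) ^ 2 +
          ∑ r ∈ Finset.range b, (2 * (r : ℤ) - ((b : ℤ) - 1)) ^ 2 := by
      intro m _
      have h2 : ∑ r ∈ Finset.range b,
          (2 * (s b (b * m + r) : ℤ) - ((b : ℤ) - 1) * ((K + 1 : ℕ) : ℤ)) ^ 2 =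
          ∑ r ∈ Finset.range b, ((2 * (s b m : ℤ) - ((b : ℤ) - 1) * K) ^ 2 +
            2 * (2 * (s b m : ℤ) - ((b : ℤ) - 1) * K) * (2 * (r : ℤ) - ((b : ℤ) - 1)) +
            (2 * (r : ℤ) - ((b : ℤ) - 1)) ^ 2) := by
        refine Finset.sum_congr rfl fun r hr => ?_
        rw [s_mul_add b m r hb (Finset.mem_range.mp hr)]
        push_cast
        ring
      rw [h2, Finset.sum_add_distrib, Finset.sum_add_distrib, ← Finset.mul_sum, sum_one,
        Finset.sum_const, Finset.card_range, nsmul_eq_mul]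
      ring
    rw [Finset.sum_congr rfl h1, Finset.sum_add_distrib, ← Finset.mul_sum, Finset.sum_const,
      Finset.card_range, nsmul_eq_mul, mul_add]
    have h3 := sum_two b ((b : ℤ) - 1)
    have h4 : 3 * ((b : ℤ) * ∑ m ∈ Finset.range (b ^ K),
        (2 * (s b m : ℤ) - ((b : ℤ) - 1) * K) ^ 2) = b * (K * ((b : ℤ) ^ 2 - 1) * (b : ℤ) ^ K) := by
      rw [← ih]; ring
    rw [h4]
    have h5 : 3 * (((b ^ K : ℕ) : ℤ) * ∑ r ∈ Finset.range b, (2 * (r : ℤ) - ((b : ℤ) - 1)) ^ 2) =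
        (b : ℤ) ^ K * (2 * b * (b - 1) * (2 * b - 1) - 6 * ((b : ℤ) - 1) * (b * (b - 1)) +
          3 * ((b : ℤ) - 1) ^ 2 * b) := by
      rw [← h3]; push_cast; ring
    rw [h5]
    push_cast
    ring

end Pool.Agent.Helper36.DC
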