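import Pool.Agent.Helper36.DC.Defs
import Pool.Agent.Helper36.DC.Digits
import Pool.Agent.Helper36.DC.Moment

/-!
# DC-3: the second moment of the digit sum along an arithmetic progression
-/

namespace Pool.Agent.Helper36.DC

namespace AP

theorem fiber_sum (S T : Finset ℕ) (g : ℕ → ℕ) (F : ℕ → ℤ) (hF : ∀ w, 0 ≤ F w)
    (hg : ∀ q ∈ S, g q ∈ T) (m c : ℤ)
    (hm : ∀ w ∈ T, m * ((S.filter (fun q => g q = w)).card : ℤ) ≤ c) :
    m * ∑ q ∈ S, F (g q) ≤ c * ∑ w ∈ T, F w := by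
  rw [← Finset.sum_fiberwise_of_maps_to hg, Finset.mul_sum, Finset.mul_sum]
  refine Finset.sum_le_sum (fun w hw => ?_)
  have h1 : ∑ q ∈ S with g q = w, F (g q) = ((S.filter (fun q => g q = w)).card : ℤ) * F w := by
    rw [← nsmul_eq_mul, ← Finset.sum_const]
    refine Finset.sum_congr rfl (fun q hq => ?_)
    rw [(Finset.mem_filter.1 hq).2]
  rw [h1, ← mul_assoc]
  exact mul_le_mul_of_nonneg_right (hm w hw) (hF w)

theorem fiber_low (A c Q M w : ℕ) (hM : 0 < M) (hA : Nat.Coprime A M) (hQ : M ≤ Q) :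
    M * ((Finset.range Q).filter (fun q => (A * q + c) % M = w)).card ≤ 2 * Q := by
  have h1 : ((Finset.range Q).filter (fun q => (A * q + c) % M = w)).card ≤ Q / M + 1 := by
    rw [← Finset.card_range (Q / M + 1)]
    refine Finset.card_le_card_of_injOn (fun q => q / M) ?_ ?_
    · intro q hq
      have hq' := Finset.mem_filter.1 (Finset.mem_coe.1 hq)
      have h2 : q < Q := Finset.mem_range.1 hq'.1
      apply Finset.mem_coe.2
      apply Finset.mem_range.2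
      exact Nat.lt_succ_of_le (Nat.div_le_div_right h2.le)
    · intro q hq q' hq' hqq
      have h2 := (Finset.mem_filter.1 (Finset.mem_coe.1 hq)).2
      have h3 := (Finset.mem_filter.1 (Finset.mem_coe.1 hq')).2
      have h4 : A * q + c ≡ A * q' + c [MOD M] := by
        unfold Nat.ModEq
        rw [h2, h3]
      have h5 : A * q ≡ A * q' [MOD M] := Nat.ModEq.add_right_cancel' c h4
      have h6 : q ≡ q' [MOD M] := Nat.ModEq.cancel_left_of_coprime hA.symm h5
      have h7 : q / M = q' / M := hqq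
      have h8 : q % M = q' % M := h6
      rw [← Nat.div_add_mod q M, ← Nat.div_add_mod q' M, h7, h8]
  calc M * ((Finset.range Q).filter (fun q => (A * q + c) % M = w)).card
      ≤ M * (Q / M + 1) := Nat.mul_le_mul_left _ h1
    _ = M * (Q / M) + M := by ring
    _ ≤ Q + Q := Nat.add_le_add (Nat.mul_div_le Q M) hQ
    _ = 2 * Q := by ring

theorem fiber_top (A c Q M v : ℕ) (hM : 0 < M) (hA : A ≤ M) :
    A * ((Finset.range Q).filter (fun q => (A * q + c) / M = v)).card ≤ 2 * M := by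
  set S := (Finset.range Q).filter (fun q => (A * q + c) / M = v) with hS
  rcases S.eq_empty_or_nonempty with h | h
  · rw [h]; simp
  · have h1 := S.min'_mem h
    have h2 := S.max'_mem h
    set x := S.min' h with hx
    set y := S.max' h with hy
    have hsub : S ⊆ Finset.Icc x y := by
      intro q hq
      rw [Finset.mem_Icc]
      exact ⟨S.min'_le q hq, S.le_max' q hq⟩
    have hcard : S.card ≤ y + 1 - x := by
      have := Finset.card_le_card hsub
      rwa [Nat.card_Icc] at this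
    have h3 : (A * x + c) / M = v := (Finset.mem_filter.1 h1).2
    have h4 : (A * y + c) / M = v := (Finset.mem_filter.1 h2).2
    have h5 : M * v ≤ A * x + c := by rw [← h3]; exact Nat.mul_div_le _ _
    have h6 : A * y + c < M * (v + 1) := by
      rw [← h4]; exact Nat.lt_mul_div_succ _ hM
    have hxy : x ≤ y := S.min'_le _ h2
    obtain ⟨t, ht⟩ := Nat.exists_eq_add_of_le hxy
    have h7 : A * t < M := by
      rw [ht] at h6
      have : A * (x + t) + c = A * x + c + A * t := by ring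
      rw [this] at h6
      have h8 : M * (v + 1) = M * v + M := by ring
      omega
    have h9 : S.card ≤ t + 1 := by omega
    calc A * S.card ≤ A * (t + 1) := Nat.mul_le_mul_left _ h9
      _ = A * t + A := by ring
      _ ≤ M + M := Nat.add_le_add h7.le hA
      _ = 2 * M := by ring

end AP

open AP in
theorem ap_moment (b A c Q K K' : ℕ) (hb : 2 ≤ b) (hA : Nat.Coprime A b) (hc : c < A)
    (h1 : A ≤ b ^ K) (h2 : b ^ K ≤ Q) (h3 : A * Q ≤ b ^ (K + K'))
    (h4 : b ^ (K + K') ≤ b * (A * Q)) :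
    3 * ∑ q ∈ Finset.range Q,
        (2 * (s b (A * q + c) : ℤ) - ((b : ℤ) - 1) * ((K : ℤ) + K')) ^ 2
      ≤ 4 * ((b : ℤ) ^ 2 - 1) * Q * ((K : ℤ) + b * K') := by
  have hb0 : 0 < b := by omega
  have hM : 0 < b ^ K := Nat.pow_pos hb0
  have hM' : 0 < b ^ K' := Nat.pow_pos hb0
  have hAp : 0 < A := by omega
  set X : ℕ → ℤ := fun w => (2 * (s b w : ℤ) - ((b : ℤ) - 1) * K) ^ 2 with hX
  set Y : ℕ → ℤ := fun w => (2 * (s b w : ℤ) - ((b : ℤ) - 1) * K') ^ 2 with hY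
  have hpt : ∀ q ∈ Finset.range Q,
      (2 * (s b (A * q + c) : ℤ) - ((b : ℤ) - 1) * ((K : ℤ) + K')) ^ 2
        ≤ 2 * X ((A * q + c) % b ^ K) + 2 * Y ((A * q + c) / b ^ K) := by
    intro q _
    have h5 : s b (A * q + c) = s b ((A * q + c) / b ^ K) + s b ((A * q + c) % b ^ K) := by
      conv_lhs => rw [← Nat.div_add_mod (A * q + c) (b ^ K)]
      exact s_concat b K _ _ hb (Nat.mod_lt _ hM)
    rw [h5, hX, hY]
    push_cast
    nlinarith [sq_nonneg ((2 * (s b ((A * q + c) % b ^ K) : ℤ) - ((b : ℤ) - 1) * K)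
      - (2 * (s b ((A * q + c) / b ^ K) : ℤ) - ((b : ℤ) - 1) * K'))]
  have hsum := Finset.sum_le_sum hpt
  rw [Finset.sum_add_distrib, ← Finset.mul_sum, ← Finset.mul_sum] at hsum
  have hcop : Nat.Coprime A (b ^ K) := Nat.Coprime.pow_right K hA
  -- low part
  have hlow := fiber_sum (Finset.range Q) (Finset.range (b ^ K)) (fun q => (A * q + c) % b ^ K) X
    (fun w => sq_nonneg _) (fun q _ => Finset.mem_range.2 (Nat.mod_lt _ hM)) ((b ^ K : ℕ) : ℤ)
    ((2 * Q : ℕ) : ℤ) (fun w _ => by exact_mod_cast fiber_low A c Q (b ^ K) w hM hcop h2)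
  have htop := fiber_sum (Finset.range Q) (Finset.range (b ^ K')) (fun q => (A * q + c) / b ^ K) Y
    (fun w => sq_nonneg _) (fun q hq => by
      have hq' : q < Q := Finset.mem_range.1 hq
      apply Finset.mem_range.2
      rw [Nat.div_lt_iff_lt_mul hM]
      calc A * q + c < A * q + A := by omega
        _ = A * (q + 1) := by ring
        _ ≤ A * Q := Nat.mul_le_mul_left _ hq'
        _ ≤ b ^ (K + K') := h3
        _ = b ^ K' * b ^ K := by rw [pow_add, mul_comm]) (A : ℤ)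
    ((2 * b ^ K : ℕ) : ℤ) (fun w _ => by exact_mod_cast fiber_top A c Q (b ^ K) w hM h1)
  have hmX := moment b K hb
  have hmY := moment b K' hb
  have hMz : (0 : ℤ) < (b : ℤ) ^ K := by positivity
  have hAz : (0 : ℤ) < (A : ℤ) := by exact_mod_cast hAp
  push_cast at hlow htop
  -- bounds for the two parts
  have hlow' : 3 * ∑ q ∈ Finset.range Q, X ((A * q + c) % b ^ K)
      ≤ 2 * Q * (K * ((b : ℤ) ^ 2 - 1)) := by
    have h6 : (b : ℤ) ^ K * (3 * ∑ q ∈ Finset.range Q, X ((A * q + c) % b ^ K))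
        ≤ (b : ℤ) ^ K * (2 * Q * (K * ((b : ℤ) ^ 2 - 1))) := by
      calc (b : ℤ) ^ K * (3 * ∑ q ∈ Finset.range Q, X ((A * q + c) % b ^ K))
          = 3 * ((b : ℤ) ^ K * ∑ q ∈ Finset.range Q, X ((A * q + c) % b ^ K)) := by ring
        _ ≤ 3 * (2 * (Q : ℤ) * ∑ w ∈ Finset.range (b ^ K), X w) := by gcongr
        _ = 2 * (Q : ℤ) * (3 * ∑ w ∈ Finset.range (b ^ K), X w) := by ring
        _ = 2 * (Q : ℤ) * (K * ((b : ℤ) ^ 2 - 1) * (b : ℤ) ^ K) := by rw [hX, hmX]
        _ = (b : ℤ) ^ K * (2 * Q * (K * ((b : ℤ) ^ 2 - 1))) := by ring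
    exact le_of_mul_le_mul_left h6 hMz
  have hb2 : (0 : ℤ) ≤ (b : ℤ) ^ 2 - 1 := by
    have : (1 : ℤ) ≤ (b : ℤ) ^ 2 := by
      have hb' : (1 : ℤ) ≤ (b : ℤ) := by exact_mod_cast (by omega : 1 ≤ b)
      nlinarith
    linarith
  have h4z : (b : ℤ) ^ K * (b : ℤ) ^ K' ≤ b * (A * Q) := by
    rw [← pow_add]
    exact_mod_cast h4
  have htop' : 3 * ∑ q ∈ Finset.range Q, Y ((A * q + c) / b ^ K)
      ≤ 2 * (K' * ((b : ℤ) ^ 2 - 1)) * (b * Q) := by
    have h6 : (A : ℤ) * (3 * ∑ q ∈ Finset.range Q, Y ((A * q + c) / b ^ K))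
        ≤ (A : ℤ) * (2 * (K' * ((b : ℤ) ^ 2 - 1)) * (b * Q)) := by
      calc (A : ℤ) * (3 * ∑ q ∈ Finset.range Q, Y ((A * q + c) / b ^ K))
          = 3 * ((A : ℤ) * ∑ q ∈ Finset.range Q, Y ((A * q + c) / b ^ K)) := by ring
        _ ≤ 3 * (2 * (b : ℤ) ^ K * ∑ w ∈ Finset.range (b ^ K'), Y w) := by gcongr
        _ = 2 * (b : ℤ) ^ K * (3 * ∑ w ∈ Finset.range (b ^ K'), Y w) := by ring
        _ = 2 * (b : ℤ) ^ K * (K' * ((b : ℤ) ^ 2 - 1) * (b : ℤ) ^ K') := by rw [hY, hmY]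
        _ = 2 * (K' * ((b : ℤ) ^ 2 - 1)) * ((b : ℤ) ^ K * (b : ℤ) ^ K') := by ring
        _ ≤ 2 * (K' * ((b : ℤ) ^ 2 - 1)) * (b * (A * Q)) := by
            apply mul_le_mul_of_nonneg_left h4z
            positivity
        _ = (A : ℤ) * (2 * (K' * ((b : ℤ) ^ 2 - 1)) * (b * Q)) := by ring
    exact le_of_mul_le_mul_left h6 hAz
  calc 3 * ∑ q ∈ Finset.range Q,
        (2 * (s b (A * q + c) : ℤ) - ((b : ℤ) - 1) * ((K : ℤ) + K')) ^ 2
      ≤ 3 * (2 * ∑ q ∈ Finset.range Q, X ((A * q + c) % b ^ K)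
        + 2 * ∑ q ∈ Finset.range Q, Y ((A * q + c) / b ^ K)) := by gcongr
    _ = 2 * (3 * ∑ q ∈ Finset.range Q, X ((A * q + c) % b ^ K))
        + 2 * (3 * ∑ q ∈ Finset.range Q, Y ((A * q + c) / b ^ K)) := by ring
    _ ≤ 2 * (2 * Q * (K * ((b : ℤ) ^ 2 - 1)))
        + 2 * (2 * (K' * ((b : ℤ) ^ 2 - 1)) * (b * Q)) := by gcongr
    _ = 4 * ((b : ℤ) ^ 2 - 1) * Q * ((K : ℤ) + b * K') := by ring

end Pool.Agent.Helper36.DC
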