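import Pool.Agent.Helper36.DC.Digits

/-!
# Windows: the explicit base case
-/

namespace Pool.Agent.Helper36.DC

/-- divide and conquer evaluation of the sum of digits -/
def ds (b k : ℕ) : ℕ → ℕ :=
  Nat.rec (motive := fun _ => ℕ → ℕ) (fun n => n)
    (fun k ih n => Nat.rec (motive := fun _ => ℕ) 0
      (fun m _ => ih ((m + 1) / b ^ (2 ^ k)) + ih ((m + 1) % b ^ (2 ^ k))) n) k

theorem ds_zero (b k : ℕ) : ds b k 0 = 0 := by
  cases k <;> rfl

theorem ds_eq (b k : ℕ) (hb : 2 ≤ b) : ∀ n : ℕ, n < b ^ (2 ^ k) → ds b k n = s b n := by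
  induction k with
  | zero =>
    intro n hn
    have hn' : n < b := by simpa using hn
    rcases Nat.eq_zero_or_pos n with h0 | h0
    · subst h0; simp [s, ds]
    · unfold s
      rw [Nat.digits_of_lt b n h0.ne' hn']
      simp [ds]
  | succ k ih =>
    intro n hn
    rcases Nat.eq_zero_or_pos n with h0 | h0
    · subst h0; rw [ds_zero, s_zero]
    · obtain ⟨m, rfl⟩ : ∃ m, n = m + 1 := ⟨n - 1, by omega⟩
      have hpos : 0 < b ^ (2 ^ k) := by positivity
      have h1 : (m + 1) % b ^ (2 ^ k) < b ^ (2 ^ k) := Nat.mod_lt _ hpos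
      have h2 : (m + 1) / b ^ (2 ^ k) < b ^ (2 ^ k) := by
        rw [Nat.div_lt_iff_lt_mul hpos]
        calc m + 1 < b ^ (2 ^ (k + 1)) := hn
          _ = b ^ (2 ^ k) * b ^ (2 ^ k) := by rw [← pow_add]; congr 1; rw [pow_succ]; ring
      have h3 : ds b (k + 1) (m + 1)
          = ds b k ((m + 1) / b ^ (2 ^ k)) + ds b k ((m + 1) % b ^ (2 ^ k)) := rfl
      rw [h3, ih _ h1, ih _ h2, ← s_concat b (2 ^ k) _ _ hb h1, Nat.div_add_mod]

/-- one level: from a window of radius `w` to a window of radius `w'` -/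
theorem level (u w u' w' : ℕ) (hW : Win u w) (l : List (ℕ × ℕ × ℤ))
    (hl : ∀ p ∈ l, u ≤ p.1 ∧ 2 ^ u ≤ 3 ^ p.2.1 ∧ 2 ^ p.1 * (3 ^ p.2.1 + 1) ≤ 2 ^ u' ∧
      (s 2 (3 ^ p.2.1) : ℤ) - (s 3 (2 ^ p.1) : ℤ) = p.2.2)
    (hc : ∀ t : ℤ, |t| ≤ (w' : ℤ) → ∃ p ∈ l, |t - p.2.2| ≤ (w : ℤ)) : Win u' w' := by
  intro t ht
  obtain ⟨p, hp, hpt⟩ := hc t ht
  obtain ⟨h1, h2, h3, h4⟩ := hl p hp
  obtain ⟨r, hr, hdr⟩ := hW _ hpt
  have hr2 : r < 2 ^ p.1 := lt_of_lt_of_le hr (Nat.pow_le_pow_right (by norm_num) h1)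
  have hr3 : r < 3 ^ p.2.1 := lt_of_lt_of_le hr h2
  refine ⟨2 ^ p.1 * 3 ^ p.2.1 * 1 + r, ?_, ?_⟩
  · refine lt_of_lt_of_le ?_ h3
    rw [mul_add, mul_one, mul_one]
    exact Nat.add_lt_add_left hr2 _
  · rw [d_concat p.1 p.2.1 1 r hr2 hr3, mul_one, mul_one, h4, hdr]
    ring

theorem win0 : Win 24 16 := by
  have hw : ∀ n : ℕ, n < 2 ^ (2 ^ 5) → n < 3 ^ (2 ^ 5) →
      d n = (ds 2 5 n : ℤ) - (ds 3 5 n : ℤ) := by
    intro n h2 h3
    rw [d, ds_eq 2 5 le_rfl n h2, ds_eq 3 5 (by norm_num) n h3]
  intro t ht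
  have ht1 : -16 ≤ t := by have := (abs_le.mp ht).1; push_cast at this; exact this
  have ht2 : t ≤ 16 := by have := (abs_le.mp ht).2; push_cast at this; exact this
  interval_cases t
  · exact ⟨294992, by norm_num, by rw [hw _ (by norm_num) (by norm_num)]; decide +kernel⟩
  · exact ⟨32768, by norm_num, by rw [hw _ (by norm_num) (by norm_num)]; decide +kernel⟩
  · exact ⟨32776, by norm_num, by rw [hw _ (by norm_num) (by norm_num)]; decide +kernel⟩
  · exact ⟨18944, by norm_num, by rw [hw _ (by norm_num) (by norm_num)]; decide +kernel⟩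
  · exact ⟨17408, by norm_num, by rw [hw _ (by norm_num) (by norm_num)]; decide +kernel⟩
  · exact ⟨4130, by norm_num, by rw [hw _ (by norm_num) (by norm_num)]; decide +kernel⟩
  · exact ⟨2176, by norm_num, by rw [hw _ (by norm_num) (by norm_num)]; decide +kernel⟩
  · exact ⟨2048, by norm_num, by rw [hw _ (by norm_num) (by norm_num)]; decide +kernel⟩
  · exact ⟨1376, by norm_num, by rw [hw _ (by norm_num) (by norm_num)]; decide +kernel⟩
  · exact ⟨512, by norm_num, by rw [hw _ (by norm_num) (by norm_num)]; decide +kernel⟩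
  · exact ⟨80, by norm_num, by rw [hw _ (by norm_num) (by norm_num)]; decide +kernel⟩
  · exact ⟨128, by norm_num, by rw [hw _ (by norm_num) (by norm_num)]; decide +kernel⟩
  · exact ⟨68, by norm_num, by rw [hw _ (by norm_num) (by norm_num)]; decide +kernel⟩
  · exact ⟨8, by norm_num, by rw [hw _ (by norm_num) (by norm_num)]; decide +kernel⟩
  · exact ⟨20, by norm_num, by rw [hw _ (by norm_num) (by norm_num)]; decide +kernel⟩
  · exact ⟨2, by norm_num, by rw [hw _ (by norm_num) (by norm_num)]; decide +kernel⟩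
  · exact ⟨0, by norm_num, by rw [hw _ (by norm_num) (by norm_num)]; decide +kernel⟩
  · exact ⟨3, by norm_num, by rw [hw _ (by norm_num) (by norm_num)]; decide +kernel⟩
  · exact ⟨30, by norm_num, by rw [hw _ (by norm_num) (by norm_num)]; decide +kernel⟩
  · exact ⟨27, by norm_num, by rw [hw _ (by norm_num) (by norm_num)]; decide +kernel⟩
  · exact ⟨246, by norm_num, by rw [hw _ (by norm_num) (by norm_num)]; decide +kernel⟩
  · exact ⟨243, by norm_num, by rw [hw _ (by norm_num) (by norm_num)]; decide +kernel⟩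
  · exact ⟨2430, by norm_num, by rw [hw _ (by norm_num) (by norm_num)]; decide +kernel⟩
  · exact ⟨2943, by norm_num, by rw [hw _ (by norm_num) (by norm_num)]; decide +kernel⟩
  · exact ⟨19710, by norm_num, by rw [hw _ (by norm_num) (by norm_num)]; decide +kernel⟩
  · exact ⟨20415, by norm_num, by rw [hw _ (by norm_num) (by norm_num)]; decide +kernel⟩
  · exact ⟨126846, by norm_num, by rw [hw _ (by norm_num) (by norm_num)]; decide +kernel⟩
  · exact ⟨63423, by norm_num, by rw [hw _ (by norm_num) (by norm_num)]; decide +kernel⟩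
  · exact ⟨177147, by norm_num, by rw [hw _ (by norm_num) (by norm_num)]; decide +kernel⟩
  · exact ⟨1830519, by norm_num, by rw [hw _ (by norm_num) (by norm_num)]; decide +kernel⟩
  · exact ⟨9568125, by norm_num, by rw [hw _ (by norm_num) (by norm_num)]; decide +kernel⟩
  · exact ⟨4962303, by norm_num, by rw [hw _ (by norm_num) (by norm_num)]; decide +kernel⟩
  · exact ⟨14351103, by norm_num, by rw [hw _ (by norm_num) (by norm_num)]; decide +kernel⟩
theorem s2_17 : s 2 (3 ^ 17) = 14 := by
  rw [← ds_eq 2 5 le_rfl _ (by decide +kernel)]; decide +kernel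
theorem s3_172 : s 3 (2 ^ 172) = 126 := by
  rw [← ds_eq 3 7 (by norm_num) _ (by decide +kernel)]; decide +kernel
theorem s3_137 : s 3 (2 ^ 137) = 94 := by
  rw [← ds_eq 3 7 (by norm_num) _ (by decide +kernel)]; decide +kernel
theorem s2_16 : s 2 (3 ^ 16) = 11 := by
  rw [← ds_eq 2 5 le_rfl _ (by decide +kernel)]; decide +kernel
theorem s3_81 : s 3 (2 ^ 81) = 58 := by
  rw [← ds_eq 3 6 (by norm_num) _ (by decide +kernel)]; decide +kernel
theorem s3_39 : s 3 (2 ^ 39) = 28 := by
  rw [← ds_eq 3 5 (by norm_num) _ (by decide +kernel)]; decide +kernel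
theorem s2_34 : s 2 (3 ^ 34) = 29 := by
  rw [← ds_eq 2 6 le_rfl _ (by decide +kernel)]; decide +kernel
theorem s3_24 : s 3 (2 ^ 24) = 10 := by
  rw [← ds_eq 3 4 (by norm_num) _ (by decide +kernel)]; decide +kernel
theorem s2_70 : s 2 (3 ^ 70) = 64 := by
  rw [← ds_eq 2 7 le_rfl _ (by decide +kernel)]; decide +kernel
theorem s3_25 : s 3 (2 ^ 25) = 12 := by
  rw [← ds_eq 3 4 (by norm_num) _ (by decide +kernel)]; decide +kernel
theorem s2_115 : s 2 (3 ^ 115) = 97 := by
  rw [← ds_eq 2 8 le_rfl _ (by decide +kernel)]; decide +kernel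
theorem s2_140 : s 2 (3 ^ 140) = 130 := by
  rw [← ds_eq 2 8 le_rfl _ (by decide +kernel)]; decide +kernel

theorem win1 : Win 247 128 := by
  refine level 24 16 247 128 win0 [(172, 17, -112), (137, 17, -80), (81, 16, -47), (39, 17, -14), (24, 34, 19), (25, 70, 52), (25, 115, 85), (25, 140, 118)] ?_ ?_
  · intro p hp
    simp only [List.mem_cons, List.not_mem_nil, or_false] at hp
    rcases hp with rfl | rfl | rfl | rfl | rfl | rfl | rfl | rfl
    · refine ⟨by norm_num, by decide +kernel, by decide +kernel, ?_⟩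
      simp only [s2_17, s3_172]; norm_num
    · refine ⟨by norm_num, by decide +kernel, by decide +kernel, ?_⟩
      simp only [s2_17, s3_137]; norm_num
    · refine ⟨by norm_num, by decide +kernel, by decide +kernel, ?_⟩
      simp only [s2_16, s3_81]; norm_num
    · refine ⟨by norm_num, by decide +kernel, by decide +kernel, ?_⟩
      simp only [s2_17, s3_39]; norm_num
    · refine ⟨by norm_num, by decide +kernel, by decide +kernel, ?_⟩
      simp only [s2_34, s3_24]; norm_num
    · refine ⟨by norm_num, by decide +kernel, by decide +kernel, ?_⟩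
      simp only [s2_70, s3_25]; norm_num
    · refine ⟨by norm_num, by decide +kernel, by decide +kernel, ?_⟩
      simp only [s2_115, s3_25]; norm_num
    · refine ⟨by norm_num, by decide +kernel, by decide +kernel, ?_⟩
      simp only [s2_140, s3_25]; norm_num
  · intro t ht
    simp only [List.mem_cons, List.not_mem_nil, or_false, exists_eq_or_imp, exists_eq_left]
    simp only [abs_le] at ht ⊢
    push_cast at ht ⊢
    omega

theorem s2_157 : s 2 (3 ^ 157) = 123 := by
  rw [← ds_eq 2 8 le_rfl _ (by decide +kernel)]; decide +kernel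
theorem s3_1596 : s 3 (2 ^ 1596) = 1020 := by
  rw [← ds_eq 3 10 (by norm_num) _ (by decide +kernel)]; decide +kernel
theorem s2_156 : s 2 (3 ^ 156) = 111 := by
  rw [← ds_eq 2 8 le_rfl _ (by decide +kernel)]; decide +kernel
theorem s3_1166 : s 3 (2 ^ 1166) = 752 := by
  rw [← ds_eq 3 10 (by norm_num) _ (by decide +kernel)]; decide +kernel
theorem s3_763 : s 3 (2 ^ 763) = 496 := by
  rw [← ds_eq 3 9 (by norm_num) _ (by decide +kernel)]; decide +kernel
theorem s3_359 : s 3 (2 ^ 359) = 240 := by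
  rw [← ds_eq 3 8 (by norm_num) _ (by decide +kernel)]; decide +kernel
theorem s2_323 : s 2 (3 ^ 323) = 272 := by
  rw [← ds_eq 2 9 le_rfl _ (by decide +kernel)]; decide +kernel
theorem s3_250 : s 3 (2 ^ 250) = 144 := by
  rw [← ds_eq 3 8 (by norm_num) _ (by decide +kernel)]; decide +kernel
theorem s2_678 : s 2 (3 ^ 678) = 529 := by
  rw [← ds_eq 2 11 le_rfl _ (by decide +kernel)]; decide +kernel
theorem s2_990 : s 2 (3 ^ 990) = 786 := by
  rw [← ds_eq 2 11 le_rfl _ (by decide +kernel)]; decide +kernel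
theorem s2_1281 : s 2 (3 ^ 1281) = 1043 := by
  rw [← ds_eq 2 11 le_rfl _ (by decide +kernel)]; decide +kernel

theorem win2 : Win 2281 1024 := by
  refine level 247 128 2281 1024 win1 [(1596, 157, -897), (1166, 156, -641), (763, 156, -385), (359, 156, -129), (250, 323, 128), (250, 678, 385), (250, 990, 642), (250, 1281, 899)] ?_ ?_
  · intro p hp
    simp only [List.mem_cons, List.not_mem_nil, or_false] at hp
    rcases hp with rfl | rfl | rfl | rfl | rfl | rfl | rfl | rfl
    · refine ⟨by norm_num, by decide +kernel, by decide +kernel, ?_⟩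
      simp only [s2_157, s3_1596]; norm_num
    · refine ⟨by norm_num, by decide +kernel, by decide +kernel, ?_⟩
      simp only [s2_156, s3_1166]; norm_num
    · refine ⟨by norm_num, by decide +kernel, by decide +kernel, ?_⟩
      simp only [s2_156, s3_763]; norm_num
    · refine ⟨by norm_num, by decide +kernel, by decide +kernel, ?_⟩
      simp only [s2_156, s3_359]; norm_num
    · refine ⟨by norm_num, by decide +kernel, by decide +kernel, ?_⟩
      simp only [s2_323, s3_250]; norm_num
    · refine ⟨by norm_num, by decide +kernel, by decide +kernel, ?_⟩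
      simp only [s2_678, s3_250]; norm_num
    · refine ⟨by norm_num, by decide +kernel, by decide +kernel, ?_⟩
      simp only [s2_990, s3_250]; norm_num
    · refine ⟨by norm_num, by decide +kernel, by decide +kernel, ?_⟩
      simp only [s2_1281, s3_250]; norm_num
  · intro t ht
    simp only [List.mem_cons, List.not_mem_nil, or_false, exists_eq_or_imp, exists_eq_left]
    simp only [abs_le] at ht ⊢
    push_cast at ht ⊢
    omega

theorem s2_1440 : s 2 (3 ^ 1440) = 1113 := by
  rw [← ds_eq 2 12 le_rfl _ (by decide +kernel)]; decide +kernel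
theorem s3_10232 : s 3 (2 ^ 10232) = 6490 := by
  rw [← ds_eq 3 13 (by norm_num) _ (by decide +kernel)]; decide +kernel
theorem s2_1441 : s 2 (3 ^ 1441) = 1143 := by
  rw [← ds_eq 2 12 le_rfl _ (by decide +kernel)]; decide +kernel
theorem s3_7038 : s 3 (2 ^ 7038) = 4472 := by
  rw [← ds_eq 3 13 (by norm_num) _ (by decide +kernel)]; decide +kernel
theorem s3_3782 : s 3 (2 ^ 3782) = 2424 := by
  rw [← ds_eq 3 12 (by norm_num) _ (by decide +kernel)]; decide +kernel
theorem s2_2780 : s 2 (3 ^ 2780) = 2218 := by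
  rw [← ds_eq 2 13 le_rfl _ (by decide +kernel)]; decide +kernel
theorem s3_2282 : s 3 (2 ^ 2282) = 1450 := by
  rw [← ds_eq 3 11 (by norm_num) _ (by decide +kernel)]; decide +kernel
theorem s2_5358 : s 2 (3 ^ 5358) = 4295 := by
  rw [← ds_eq 2 14 le_rfl _ (by decide +kernel)]; decide +kernel
theorem s3_2284 : s 3 (2 ^ 2284) = 1478 := by
  rw [← ds_eq 3 11 (by norm_num) _ (by decide +kernel)]; decide +kernel
theorem s2_8056 : s 2 (3 ^ 8056) = 6344 := by
  rw [← ds_eq 2 14 le_rfl _ (by decide +kernel)]; decide +kernel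
theorem s2_10410 : s 2 (3 ^ 10410) = 8367 := by
  rw [← ds_eq 2 15 le_rfl _ (by decide +kernel)]; decide +kernel
theorem s3_2281 : s 3 (2 ^ 2281) = 1452 := by
  rw [← ds_eq 3 11 (by norm_num) _ (by decide +kernel)]; decide +kernel

theorem win3 : Win 18781 6400 := by
  refine level 2281 1024 18781 6400 win2 [(10232, 1440, -5377), (7038, 1441, -3329), (3782, 1441, -1281), (2282, 2780, 768), (2284, 5358, 2817), (2284, 8056, 4866), (2281, 10410, 6915)] ?_ ?_
  · intro p hp
    simp only [List.mem_cons, List.not_mem_nil, or_false] at hp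
    rcases hp with rfl | rfl | rfl | rfl | rfl | rfl | rfl
    · refine ⟨by norm_num, by decide +kernel, by decide +kernel, ?_⟩
      simp only [s2_1440, s3_10232]; norm_num
    · refine ⟨by norm_num, by decide +kernel, by decide +kernel, ?_⟩
      simp only [s2_1441, s3_7038]; norm_num
    · refine ⟨by norm_num, by decide +kernel, by decide +kernel, ?_⟩
      simp only [s2_1441, s3_3782]; norm_num
    · refine ⟨by norm_num, by decide +kernel, by decide +kernel, ?_⟩
      simp only [s2_2780, s3_2282]; norm_num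
    · refine ⟨by norm_num, by decide +kernel, by decide +kernel, ?_⟩
      simp only [s2_5358, s3_2284]; norm_num
    · refine ⟨by norm_num, by decide +kernel, by decide +kernel, ?_⟩
      simp only [s2_8056, s3_2284]; norm_num
    · refine ⟨by norm_num, by decide +kernel, by decide +kernel, ?_⟩
      simp only [s2_10410, s3_2281]; norm_num
  · intro t ht
    simp only [List.mem_cons, List.not_mem_nil, or_false, exists_eq_or_imp, exists_eq_left]
    simp only [abs_le] at ht ⊢
    push_cast at ht ⊢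
    omega

theorem base : Win 160000 6400 := by
  intro t ht
  obtain ⟨r, hr, hd⟩ := win3 t ht
  exact ⟨r, lt_of_lt_of_le hr (Nat.pow_le_pow_right (by norm_num) (by norm_num)), hd⟩

end Pool.Agent.Helper36.DC
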