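import Pool.Agent.Helper36.DC.Defs

/-!
# DC-8a: counting binary and ternary words, Chinese remainders with multipliers (helper79)
-/

namespace Pool.Agent.Helper36.DC

theorem cl_s_rec (b n : ℕ) (hb : 2 ≤ b) : s b n = n % b + s b (n / b) := by
  rcases Nat.eq_zero_or_pos n with h | h
  · subst h; simp [s]
  · unfold s
    rw [Nat.digits_def' (by omega) h, List.sum_cons]

theorem cl_s_add (b q r : ℕ) (hb : 2 ≤ b) (hr : r < b) : s b (b * q + r) = s b q + r := by
  rw [cl_s_rec b (b * q + r) hb, Nat.mul_add_mod, Nat.mod_eq_of_lt hr,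
    Nat.mul_add_div (by omega), Nat.div_eq_of_lt hr, Nat.add_zero]
  omega

theorem cl_sum_range_mul (b N : ℕ) (g : ℕ → ℕ) :
    ∑ n ∈ Finset.range (b * N), g n
      = ∑ q ∈ Finset.range N, ∑ r ∈ Finset.range b, g (b * q + r) := by
  induction N with
  | zero => simp
  | succ N ih =>
    rw [Nat.mul_succ, Finset.sum_range_add, ih, Finset.sum_range_succ]

theorem cl_card_filter_mul (b N : ℕ) (P : ℕ → Prop) [DecidablePred P] :
    ((Finset.range (b * N)).filter P).card
      = ∑ r ∈ Finset.range b, ((Finset.range N).filter (fun q => P (b * q + r))).card := by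
  simp only [Finset.card_filter]
  rw [cl_sum_range_mul, Finset.sum_comm]

/-- number of binary words of length `a` with `k` ones (independent) -/
theorem card_bits (a k : ℕ) :
    ((Finset.range (2 ^ a)).filter (fun W => s 2 W = k)).card = a.choose k := by
  induction a generalizing k with
  | zero =>
    rcases Nat.eq_zero_or_pos k with h | h
    · subst h
      have : ((Finset.range (2 ^ 0)).filter (fun W => s 2 W = 0)) = {0} := by
        ext W
        simp only [pow_zero, Finset.range_one, Finset.mem_filter, Finset.mem_singleton,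
          and_iff_left_iff_imp]
        rintro rfl
        simp [s]
      rw [this]
      simp
    · have : ((Finset.range (2 ^ 0)).filter (fun W => s 2 W = k)) = ∅ := by
        ext W
        simp only [pow_zero, Finset.range_one, Finset.mem_filter, Finset.mem_singleton,
          Finset.notMem_empty, iff_false, not_and]
        rintro rfl
        simp only [s, Nat.digits_zero, List.sum_nil]
        omega
      rw [this, Nat.choose_eq_zero_of_lt h, Finset.card_empty]
  | succ a ih =>
    rw [pow_succ, mul_comm (2 ^ a) 2, cl_card_filter_mul]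
    rw [Finset.sum_range_succ, Finset.sum_range_one]
    have h0 : ((Finset.range (2 ^ a)).filter (fun q => s 2 (2 * q + 0) = k))
        = ((Finset.range (2 ^ a)).filter (fun q => s 2 q = k)) := by
      apply Finset.filter_congr
      intro q _
      rw [cl_s_add 2 q 0 (le_refl _) (by norm_num), add_zero]
    rw [h0, ih k]
    rcases Nat.eq_zero_or_pos k with h | h
    · subst h
      have h1 : ((Finset.range (2 ^ a)).filter (fun q => s 2 (2 * q + 1) = 0)) = ∅ := by
        apply Finset.filter_eq_empty_iff.2
        intro q _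
        rw [cl_s_add 2 q 1 (le_refl _) (by norm_num)]
        omega
      rw [h1]; simp
    · obtain ⟨k, rfl⟩ : ∃ l, k = l + 1 := ⟨k - 1, by omega⟩
      have h1 : ((Finset.range (2 ^ a)).filter (fun q => s 2 (2 * q + 1) = k + 1))
          = ((Finset.range (2 ^ a)).filter (fun q => s 2 q = k)) := by
        apply Finset.filter_congr
        intro q _
        rw [cl_s_add 2 q 1 (le_refl _) (by norm_num)]
        omega
      rw [h1, ih k, Nat.choose_succ_succ']
      omega

theorem cl_trits_rec (b n1 n2 : ℕ) :
    (b + 1).choose n1 * (b + 1 - n1).choose n2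
      = b.choose n1 * (b - n1).choose n2
        + (if n1 = 0 then 0 else b.choose (n1 - 1) * (b - (n1 - 1)).choose n2)
        + (if n2 = 0 then 0 else b.choose n1 * (b - n1).choose (n2 - 1)) := by
  rcases n1 with _ | k
  · rcases n2 with _ | l
    · simp
    · simp only [Nat.choose_zero_right, Nat.sub_zero, one_mul, if_true, Nat.add_sub_cancel,
        Nat.succ_ne_zero, if_false, add_zero]
      rw [Nat.choose_succ_succ']
      omega
  · simp only [Nat.add_sub_cancel, Nat.succ_ne_zero, if_false, Nat.add_sub_add_right]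
    rw [Nat.choose_succ_succ, add_mul]
    rcases Nat.lt_or_ge b (k + 1) with hb | hb
    · rw [Nat.choose_eq_zero_of_lt (show b < k.succ from hb)]
      simp
    · have e : b - k = (b - (k + 1)) + 1 := by omega
      rcases n2 with _ | l
      · simp
        ring
      · simp only [Nat.succ_ne_zero, if_false, Nat.add_sub_cancel]
        have e2 : (b - k).choose (l + 1)
            = (b - (k + 1)).choose l + (b - (k + 1)).choose (l + 1) := by
          rw [e, Nat.choose_succ_succ]
        rw [show k.succ = k + 1 from rfl]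
        rw [show b.choose (k + 1) * (b - k).choose (l + 1)
          = b.choose (k + 1) * ((b - (k + 1)).choose l + (b - (k + 1)).choose (l + 1)) by rw [e2]]
        ring

/-- a lower bound for the number of ternary words of length `b` with `n1` ones and `n2` twos
(independent) -/
theorem card_trits (b n1 n2 : ℕ) :
    b.choose n1 * (b - n1).choose n2 ≤
      ((Finset.range (3 ^ b)).filter (fun W => s 3 W = n1 + 2 * n2)).card := by
  induction b generalizing n1 n2 with
  | zero =>
    rcases n1 with _ | k
    · rcases n2 with _ | l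
      · have h0 : (0 : ℕ) ∈ ((Finset.range (3 ^ 0)).filter (fun W => s 3 W = 0 + 2 * 0)) := by
          simp [s]
        have := Finset.card_pos.2 ⟨0, h0⟩
        simpa using this
      · simp
    · simp
  | succ b ih =>
    rw [cl_trits_rec, pow_succ, mul_comm (3 ^ b) 3, cl_card_filter_mul]
    rw [Finset.sum_range_succ, Finset.sum_range_succ, Finset.sum_range_one]
    refine add_le_add (add_le_add ?_ ?_) ?_
    · refine (ih n1 n2).trans (Finset.card_le_card ?_)
      intro q hq
      simp only [Finset.mem_filter] at hq ⊢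
      refine ⟨hq.1, ?_⟩
      rw [cl_s_add 3 q 0 (by norm_num) (by norm_num)]
      omega
    · split_ifs with h
      · exact Nat.zero_le _
      · refine (ih (n1 - 1) n2).trans (Finset.card_le_card ?_)
        intro q hq
        simp only [Finset.mem_filter] at hq ⊢
        refine ⟨hq.1, ?_⟩
        rw [cl_s_add 3 q 1 (by norm_num) (by norm_num)]
        omega
    · split_ifs with h
      · exact Nat.zero_le _
      · refine (ih n1 (n2 - 1)).trans (Finset.card_le_card ?_)
        intro q hq
        simp only [Finset.mem_filter] at hq ⊢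
        refine ⟨hq.1, ?_⟩
        rw [cl_s_add 3 q 2 (by norm_num) (by norm_num)]
        omega

/-- Chinese remainders with multipliers (independent) -/
theorem crt_card (a b i j : ℕ) (S2 S3 : ℕ → Prop) [DecidablePred S2] [DecidablePred S3] :
    ((Finset.range (2 ^ a)).filter S2).card * ((Finset.range (3 ^ b)).filter S3).card ≤
      ((Finset.range (2 ^ a * 3 ^ b)).filter
        (fun w => S2 ((3 ^ j * w) % 2 ^ a) ∧ S3 ((2 ^ i * w) % 3 ^ b))).card := by
  classical
  let φ : ℕ → ℕ × ℕ := fun w => ((3 ^ j * w) % 2 ^ a, (2 ^ i * w) % 3 ^ b)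
  have hinj : Set.InjOn φ (Finset.range (2 ^ a * 3 ^ b) : Set ℕ) := by
    intro w hw w' hw' h
    simp only [Finset.coe_range, Set.mem_Iio] at hw hw'
    simp only [φ, Prod.mk.injEq] at h
    have c2 : Nat.Coprime (2 ^ a) (3 ^ j) := Nat.Coprime.pow _ _ (by norm_num)
    have c3 : Nat.Coprime (3 ^ b) (2 ^ i) := Nat.Coprime.pow _ _ (by norm_num)
    have h2 : w ≡ w' [MOD 2 ^ a] := Nat.ModEq.cancel_left_of_coprime c2 h.1
    have h3 : w ≡ w' [MOD 3 ^ b] := Nat.ModEq.cancel_left_of_coprime c3 h.2
    have c : Nat.Coprime (2 ^ a) (3 ^ b) := Nat.Coprime.pow _ _ (by norm_num)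
    have h4 : w ≡ w' [MOD 2 ^ a * 3 ^ b] := (Nat.modEq_and_modEq_iff_modEq_mul c).1 ⟨h2, h3⟩
    exact Nat.ModEq.eq_of_lt_of_lt h4 hw hw'
  have himg : (Finset.range (2 ^ a * 3 ^ b)).image φ
      = Finset.range (2 ^ a) ×ˢ Finset.range (3 ^ b) := by
    apply Finset.eq_of_subset_of_card_le
    · intro p hp
      obtain ⟨w, _, rfl⟩ := Finset.mem_image.1 hp
      simp only [φ, Finset.mem_product, Finset.mem_range]
      exact ⟨Nat.mod_lt _ (by positivity), Nat.mod_lt _ (by positivity)⟩
    · rw [Finset.card_image_of_injOn hinj, Finset.card_product]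
      simp
  rw [← Finset.card_product]
  refine le_trans (Finset.card_le_card (t := ((Finset.range (2 ^ a * 3 ^ b)).filter
        (fun w => S2 ((3 ^ j * w) % 2 ^ a) ∧ S3 ((2 ^ i * w) % 3 ^ b))).image φ) ?_)
    Finset.card_image_le
  intro p hp
  simp only [Finset.mem_product, Finset.mem_filter] at hp
  have hp' : p ∈ (Finset.range (2 ^ a * 3 ^ b)).image φ := by
    rw [himg]
    exact Finset.mem_product.2 ⟨hp.1.1, hp.2.1⟩
  obtain ⟨w, hw, rfl⟩ := Finset.mem_image.1 hp'
  refine Finset.mem_image.2 ⟨w, Finset.mem_filter.2 ⟨hw, ?_⟩, rfl⟩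
  exact ⟨hp.1.2, hp.2.2⟩

end Pool.Agent.Helper36.DC
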