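import Pool.Agent.Helper36.DC.Defs

/-!
# DC-4: few multipliers `q` with atypical sums of digits
-/

set_option autoImplicit false

namespace Pool.Agent.Helper36.DC

namespace Good

/-- The statement of DC-3 (`ap_moment`). -/
def APMoment : Prop :=
  ∀ (b A c Q K K' : ℕ), 2 ≤ b → Nat.Coprime A b → c < A → A ≤ b ^ K → b ^ K ≤ Q →
    A * Q ≤ b ^ (K + K') → b ^ (K + K') ≤ b * (A * Q) →
    3 * ∑ q ∈ Finset.range Q,
        (2 * (s b (A * q + c) : ℤ) - ((b : ℤ) - 1) * ((K : ℤ) + K')) ^ 2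
      ≤ 4 * ((b : ℤ) ^ 2 - 1) * Q * ((K : ℤ) + b * K')

theorem two_three {a k : ℕ} (h : 3 ^ k ≤ 2 ^ a) : 25 * k ≤ 16 * a := by
  have h1 : 2 ^ (25 * k) ≤ 2 ^ (16 * a) := by
    calc 2 ^ (25 * k) = (2 ^ 25) ^ k := by rw [pow_mul]
      _ ≤ (3 ^ 16) ^ k := Nat.pow_le_pow_left (by norm_num) k
      _ = (3 ^ k) ^ 16 := by rw [← pow_mul, ← pow_mul, mul_comm]
      _ ≤ (2 ^ a) ^ 16 := Nat.pow_le_pow_left h 16
      _ = 2 ^ (16 * a) := by rw [← pow_mul, mul_comm]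
  exact (Nat.pow_le_pow_iff_right (by norm_num)).mp h1

theorem clog_mul (B g : ℕ) : Nat.clog 2 (3 ^ B * 2 ^ g) = g + Nat.clog 2 (3 ^ B) := by
  rcases Nat.eq_zero_or_pos B with rfl | hB
  · simp [Nat.clog_pow 2 g (by norm_num)]
  · have h1 : 1 < 3 ^ B := Nat.one_lt_pow hB.ne' (by norm_num)
    have h2 : 0 < Nat.clog 2 (3 ^ B) := Nat.clog_pos (by norm_num) h1
    apply le_antisymm
    · rw [Nat.clog_le_iff_le_pow (by norm_num), pow_add, mul_comm]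
      exact Nat.mul_le_mul_left _ (Nat.le_pow_clog (by norm_num) _)
    · have h3 := Nat.pow_pred_clog_lt_self (b := 2) (by norm_num) h1
      have h4 : g + (Nat.clog 2 (3 ^ B)).pred < Nat.clog 2 (3 ^ B * 2 ^ g) := by
        rw [Nat.lt_clog_iff_pow_lt (by norm_num), pow_add, mul_comm]
        exact Nat.mul_lt_mul_of_pos_right h3 (by positivity)
      have h5 : (Nat.clog 2 (3 ^ B)).pred + 1 = Nat.clog 2 (3 ^ B) := Nat.succ_pred h2.ne'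
      omega

theorem base_two (h : APMoment) (B g c : ℕ) (hc : c < 3 ^ B) (hB : 3 ^ B ≤ 2 ^ g) :
    ∑ q ∈ Finset.range (2 ^ g), (2 * (s 2 (3 ^ B * q + c) : ℤ) -
      (Nat.clog 2 (3 ^ B * 2 ^ g) : ℤ)) ^ 2 ≤ (12 : ℤ) * g * 2 ^ g := by
  have hK : Nat.clog 2 (3 ^ B) ≤ g := (Nat.clog_le_iff_le_pow (by norm_num)).mpr hB
  have h3 : 3 ^ B * 2 ^ g ≤ 2 ^ (g + Nat.clog 2 (3 ^ B)) := by
    rw [pow_add, mul_comm]
    exact Nat.mul_le_mul_left _ (Nat.le_pow_clog (by norm_num) _)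
  have h4 : 2 ^ (g + Nat.clog 2 (3 ^ B)) ≤ 2 * (3 ^ B * 2 ^ g) := by
    have h5 : 2 ^ Nat.clog 2 (3 ^ B) ≤ 2 * 3 ^ B := by
      rcases Nat.eq_zero_or_pos B with rfl | hB
      · simp
      · have h1 : 1 < 3 ^ B := Nat.one_lt_pow hB.ne' (by norm_num)
        have h2 : 0 < Nat.clog 2 (3 ^ B) := Nat.clog_pos (by norm_num) h1
        have h3 := Nat.pow_pred_clog_lt_self (b := 2) (by norm_num) h1
        have h6 : (Nat.clog 2 (3 ^ B)).pred + 1 = Nat.clog 2 (3 ^ B) := Nat.succ_pred h2.ne'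
        rw [← h6, pow_succ]
        omega
    calc 2 ^ (g + Nat.clog 2 (3 ^ B)) = 2 ^ g * 2 ^ Nat.clog 2 (3 ^ B) := pow_add _ _ _
      _ ≤ 2 ^ g * (2 * 3 ^ B) := Nat.mul_le_mul_left _ h5
      _ = 2 * (3 ^ B * 2 ^ g) := by ring
  have h5 := h 2 (3 ^ B) c (2 ^ g) g (Nat.clog 2 (3 ^ B)) le_rfl
    (Nat.Coprime.pow_left B (by norm_num)) hc hB le_rfl h3 h4
  have h6 : ∀ q : ℕ, (2 * (s 2 (3 ^ B * q + c) : ℤ) - (Nat.clog 2 (3 ^ B * 2 ^ g) : ℤ)) ^ 2 =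
      (2 * (s 2 (3 ^ B * q + c) : ℤ) - (((2 : ℕ) : ℤ) - 1) * ((g : ℤ) +
        (Nat.clog 2 (3 ^ B) : ℕ))) ^ 2 := by
    intro q
    rw [clog_mul]
    push_cast
    ring
  rw [Finset.sum_congr rfl (fun q _ => h6 q)]
  have h7 : ((Nat.clog 2 (3 ^ B) : ℕ) : ℤ) ≤ g := by exact_mod_cast hK
  have h8 : (0 : ℤ) < 2 ^ g := by positivity
  push_cast at h5 ⊢
  nlinarith [mul_le_mul_of_nonneg_left h7 h8.le]

theorem base_three (h : APMoment) (A g c : ℕ) (hc : c < 2 ^ A) (hA : A + 2 ≤ g) :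
    3 * ∑ q ∈ Finset.range (2 ^ g), (2 * (s 3 (2 ^ A * q + c) : ℤ) -
      2 * (Nat.clog 3 (2 ^ (A + g)) : ℤ)) ^ 2 ≤ (2 : ℤ) ^ g * (21 * g + 63 * A + 240) := by
  set K := Nat.log 3 (2 ^ g) with hK
  set L := Nat.clog 3 (2 ^ (A + g)) with hL
  have a1 : 3 ^ K ≤ 2 ^ g := Nat.pow_log_le_self 3 (by positivity)
  have a2 : 2 ^ g < 3 ^ (K + 1) := Nat.lt_pow_succ_log_self (by norm_num) _
  have a3 : 2 ^ (A + g) ≤ 3 ^ L := Nat.le_pow_clog (by norm_num) _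
  have hgt : 1 < 2 ^ (A + g) := Nat.one_lt_pow (by omega) (by norm_num)
  have hL0 : 0 < L := Nat.clog_pos (by norm_num) hgt
  have a4 : 3 ^ (L - 1) < 2 ^ (A + g) := Nat.pow_pred_clog_lt_self (by norm_num) hgt
  have a5 : K ≤ L := by
    have : 3 ^ K ≤ 3 ^ L := a1.trans ((Nat.pow_le_pow_right (by norm_num) (by omega)).trans a3)
    exact (Nat.pow_le_pow_iff_right (by norm_num)).mp this
  obtain ⟨K', hK'⟩ := Nat.exists_eq_add_of_le a5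
  have b1 : 2 ^ A ≤ 3 ^ K := by
    have : 4 * 2 ^ A ≤ 2 ^ g := by
      calc 4 * 2 ^ A = 2 ^ (A + 2) := by rw [pow_add]; ring
        _ ≤ 2 ^ g := Nat.pow_le_pow_right (by norm_num) hA
    rw [pow_succ] at a2
    omega
  have b3 : 2 ^ A * 2 ^ g ≤ 3 ^ (K + K') := by
    rw [← pow_add, ← hK']
    exact a3
  have b4 : 3 ^ (K + K') ≤ 3 * (2 ^ A * 2 ^ g) := by
    rw [← pow_add, ← hK']
    have : L = (L - 1) + 1 := by omega
    rw [this, pow_succ]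
    omega
  have h5 := h 3 (2 ^ A) c (2 ^ g) K K' (by norm_num)
    (Nat.Coprime.pow_left A (by norm_num)) hc b1 a1 b3 b4
  have c1 : 25 * K ≤ 16 * g := two_three a1
  have c2 : 25 * K' ≤ 16 * A + 50 := by
    rcases Nat.lt_or_ge K' 2 with hlt | hge
    · omega
    · have e1 : 3 ^ (K' - 2) < 2 ^ A := by
        have e2 : 3 ^ (K' - 2) * 3 ^ (K + 1) < 2 ^ A * 3 ^ (K + 1) := by
          calc 3 ^ (K' - 2) * 3 ^ (K + 1) = 3 ^ (L - 1) := by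
                rw [← pow_add]; congr 1; omega
            _ < 2 ^ (A + g) := a4
            _ = 2 ^ A * 2 ^ g := pow_add _ _ _
            _ ≤ 2 ^ A * 3 ^ (K + 1) := Nat.mul_le_mul_left _ a2.le
        exact Nat.lt_of_mul_lt_mul_right e2
      have := two_three e1.le
      omega
  have h6 : ∀ q : ℕ, (2 * (s 3 (2 ^ A * q + c) : ℤ) - 2 * (L : ℤ)) ^ 2 =
      (2 * (s 3 (2 ^ A * q + c) : ℤ) - (((3 : ℕ) : ℤ) - 1) * ((K : ℤ) + (K' : ℤ))) ^ 2 := by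
    intro q
    rw [hK']
    push_cast
    ring
  rw [Finset.sum_congr rfl (fun q _ => h6 q)]
  have h7 : (25 : ℤ) * K ≤ 16 * g := by exact_mod_cast c1
  have h7' : (25 : ℤ) * K' ≤ 16 * A + 50 := by exact_mod_cast c2
  have h8 : (0 : ℤ) < 2 ^ g := by positivity
  have h9 : (32 : ℤ) * (K + 3 * K') ≤ 21 * g + 63 * A + 240 := by
    have : (0 : ℤ) ≤ g := by positivity
    have : (0 : ℤ) ≤ A := by positivity
    linarith
  refine h5.trans ?_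
  push_cast
  calc (4 * (3 ^ 2 - 1) * 2 ^ g * ((K : ℤ) + 3 * K')) = 2 ^ g * (32 * ((K : ℤ) + 3 * K')) := by ring
    _ ≤ 2 ^ g * (21 * g + 63 * A + 240) := mul_le_mul_of_nonneg_left h9 h8.le

theorem good_of (h : APMoment) (A B g c c' δ : ℕ) (hc : c < 3 ^ B) (hc' : c' < 2 ^ A)
    (hB : 3 ^ B ≤ 2 ^ g) (hA : A + 2 ≤ g) :
    ((Finset.range (2 ^ g)).filter (fun q =>
        (δ : ℤ) ≤ |2 * (s 2 (3 ^ B * q + c) : ℤ) - (Nat.clog 2 (3 ^ B * 2 ^ g) : ℤ)| ∨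
        (δ : ℤ) ≤ |2 * (s 3 (2 ^ A * q + c') : ℤ) - 2 * (Nat.clog 3 (2 ^ (A + g)) : ℤ)|)).card
      * δ ^ 2 ≤ 2 ^ g * (19 * g + 21 * A + 80) := by
  have h1 := base_two h B g c hc hB
  have h2 := base_three h A g c' hc' hA
  set X : ℕ → ℤ := fun q => 2 * (s 2 (3 ^ B * q + c) : ℤ) - (Nat.clog 2 (3 ^ B * 2 ^ g) : ℤ)
    with hX
  set Y : ℕ → ℤ := fun q => 2 * (s 3 (2 ^ A * q + c') : ℤ) - 2 * (Nat.clog 3 (2 ^ (A + g)) : ℤ)
    with hY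
  have h3 : (((Finset.range (2 ^ g)).filter (fun q => (δ : ℤ) ≤ |X q| ∨
      (δ : ℤ) ≤ |Y q|)).card : ℤ) * (δ : ℤ) ^ 2 ≤
      ∑ q ∈ Finset.range (2 ^ g), X q ^ 2 + ∑ q ∈ Finset.range (2 ^ g), Y q ^ 2 := by
    rw [← Finset.sum_add_distrib]
    calc (((Finset.range (2 ^ g)).filter (fun q => (δ : ℤ) ≤ |X q| ∨
      (δ : ℤ) ≤ |Y q|)).card : ℤ) * (δ : ℤ) ^ 2
        = ∑ q ∈ (Finset.range (2 ^ g)).filter (fun q => (δ : ℤ) ≤ |X q| ∨ (δ : ℤ) ≤ |Y q|),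
          (δ : ℤ) ^ 2 := by rw [Finset.sum_const, nsmul_eq_mul]
      _ ≤ ∑ q ∈ (Finset.range (2 ^ g)).filter (fun q => (δ : ℤ) ≤ |X q| ∨ (δ : ℤ) ≤ |Y q|),
          (X q ^ 2 + Y q ^ 2) := by
          apply Finset.sum_le_sum
          intro q hq
          rw [Finset.mem_filter] at hq
          have hδ : (0 : ℤ) ≤ δ := by positivity
          rcases hq.2 with h | h
          · have : (δ : ℤ) ^ 2 ≤ |X q| ^ 2 := pow_le_pow_left₀ hδ h 2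
            rw [sq_abs] at this
            nlinarith [sq_nonneg (Y q)]
          · have : (δ : ℤ) ^ 2 ≤ |Y q| ^ 2 := pow_le_pow_left₀ hδ h 2
            rw [sq_abs] at this
            nlinarith [sq_nonneg (X q)]
      _ ≤ ∑ q ∈ Finset.range (2 ^ g), (X q ^ 2 + Y q ^ 2) := by
          apply Finset.sum_le_sum_of_subset_of_nonneg (Finset.filter_subset _ _)
          intro q _ _
          positivity
  have h8 : (0 : ℤ) < 2 ^ g := by positivity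
  zify
  have h9 : 3 * (((((Finset.range (2 ^ g)).filter (fun q => (δ : ℤ) ≤ |X q| ∨
      (δ : ℤ) ≤ |Y q|)).card : ℤ) * (δ : ℤ) ^ 2)) ≤ 3 * (2 ^ g * (19 * g + 21 * A + 80)) := by
    have e1 : (3 : ℤ) * (12 * g * 2 ^ g) + 2 ^ g * (21 * g + 63 * A + 240) =
      3 * (2 ^ g * (19 * g + 21 * A + 80)) := by ring
    rw [← e1]
    linarith
  exact le_of_mul_le_mul_left h9 (by norm_num)

end Good

end Pool.Agent.Helper36.DC
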