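import Pool.Agent.Helper36.DC.AP
import Pool.Agent.Helper36.DC.GoodOf

namespace Pool.Agent.Helper36.DC

theorem good (A B g c c' δ : ℕ) (hc : c < 3 ^ B) (hc' : c' < 2 ^ A) (hB : 3 ^ B ≤ 2 ^ g)
    (hA : A + 2 ≤ g) :
    ((Finset.range (2 ^ g)).filter (fun q =>
        (δ : ℤ) ≤ |2 * (s 2 (3 ^ B * q + c) : ℤ) - (Nat.clog 2 (3 ^ B * 2 ^ g) : ℤ)| ∨
        (δ : ℤ) ≤ |2 * (s 3 (2 ^ A * q + c') : ℤ) - 2 * (Nat.clog 3 (2 ^ (A + g)) : ℤ)|)).card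
      * δ ^ 2 ≤ 2 ^ g * (19 * g + 21 * A + 80) :=
  Good.good_of ap_moment A B g c c' δ hc hc' hB hA

end Pool.Agent.Helper36.DC
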