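import Pool.Agent.Helper36.DC.Step
import Pool.Agent.Helper36.DC.Base

/-!
# Windows of linear size
-/

namespace Pool.Agent.Helper36.DC

theorem win_iter (k : ℕ) : Win (160000 * 25 ^ k) (6400 * 25 ^ k) := by
  induction k with
  | zero => simpa using base
  | succ k ih =>
    have h1 : 160000 * 25 ^ k / 25 = 6400 * 25 ^ k := by
      have : 160000 * 25 ^ k = 25 * (6400 * 25 ^ k) := by ring
      rw [this, Nat.mul_div_cancel_left _ (by norm_num)]
    have h2 : 160000 ≤ 160000 * 25 ^ k := Nat.le_mul_of_pos_right _ (by positivity)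
    have h3 := step (160000 * 25 ^ k) h2 (by rw [h1]; exact ih)
    have e1 : 160000 * 25 ^ (k + 1) = 25 * (160000 * 25 ^ k) := by ring
    have e2 : 6400 * 25 ^ (k + 1) = 160000 * 25 ^ k := by ring
    rw [e1, e2]
    exact h3

theorem windows (u : ℕ) (hu : 160000 ≤ u) : Win u (u / 625) := by
  have hex : ∃ k : ℕ, u < 160000 * 25 ^ k := by
    obtain ⟨k, hk⟩ := pow_unbounded_of_one_lt u (by norm_num : (1 : ℕ) < 25)
    exact ⟨k, by nlinarith⟩
  classical
  obtain ⟨hk1, hk2⟩ := And.intro (Nat.find_spec hex) (fun m => @Nat.find_min _ _ hex m)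
  set k := Nat.find hex with hk
  rcases Nat.eq_zero_or_pos k with h0 | h0
  · rw [h0] at hk1; simp at hk1; omega
  · obtain ⟨j, hj⟩ : ∃ j, k = j + 1 := ⟨k - 1, by omega⟩
    have hj2 : 160000 * 25 ^ j ≤ u := by
      have := hk2 j (by omega)
      omega
    rw [hj] at hk1
    intro t ht
    have h5 : u / 625 ≤ 6400 * 25 ^ j := by
      apply Nat.div_le_of_le_mul
      have : 160000 * 25 ^ (j + 1) = 625 * (6400 * 25 ^ j) := by ring
      omega
    obtain ⟨r, hr, hd⟩ := win_iter j t (le_trans ht (by exact_mod_cast h5))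
    exact ⟨r, lt_of_lt_of_le hr (Nat.pow_le_pow_right (by norm_num) hj2), hd⟩

end Pool.Agent.Helper36.DC
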