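import Pool.Agent.Helper36.DC.Digits
import Pool.Agent.Helper36.DC.Good
import Pool.Agent.Helper36.DC.Windows
import Pool.Agent.Helper36.DC.CountLemmas

/-!
# DC-8b: the lower bound for the number of collisions
-/

namespace Pool.Agent.Helper36.DC

theorem pow_ratio (x y p q a b : ℕ) (hy : 1 ≤ y) (hp : p ≠ 0) (h : x ^ p ≤ y ^ q)
    (hab : q * a ≤ b * p) : x ^ a ≤ y ^ b := by
  have h1 : (x ^ a) ^ p ≤ (y ^ b) ^ p := by
    calc (x ^ a) ^ p = (x ^ p) ^ a := by rw [← pow_mul, ← pow_mul, mul_comm]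
      _ ≤ (y ^ q) ^ a := Nat.pow_le_pow_left h a
      _ = y ^ (q * a) := by rw [← pow_mul]
      _ ≤ y ^ (b * p) := Nat.pow_le_pow_right hy hab
      _ = (y ^ b) ^ p := by rw [← pow_mul]
  exact (Nat.pow_le_pow_iff_left hp).mp h1

theorem pow_two_le_a (m : ℕ) : 2 ^ (20003 * m) ≤ 3 ^ (12621 * m) :=
  pow_ratio 2 3 84 53 _ _ (by norm_num) (by norm_num) (by norm_num) (by omega)

theorem pow_three_le_b (m : ℕ) : 3 ^ (6310 * m) ≤ 2 ^ (10002 * m) :=
  pow_ratio 3 2 147 233 _ _ (by norm_num) (by norm_num) (by norm_num) (by omega)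

theorem pow_two_le_c (m : ℕ) : 2 ^ (10000 * m) ≤ 3 ^ (6310 * m) :=
  pow_ratio 2 3 84 53 _ _ (by norm_num) (by norm_num) (by norm_num) (by omega)

theorem pow_three_le_d (m : ℕ) : 3 ^ (12000 * m) ≤ 2 ^ (20003 * m) :=
  pow_ratio 3 2 5 8 _ _ (by norm_num) (by norm_num) (by norm_num) (by omega)

/-- the bounds for the two logarithms -/
theorem clog_bounds (m : ℕ) :
    20002 * m ≤ Nat.clog 2 (3 ^ (6310 * m) * 2 ^ (10002 * m)) ∧
    Nat.clog 2 (3 ^ (6310 * m) * 2 ^ (10002 * m)) ≤ 20004 * m ∧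
    12000 * m ≤ Nat.clog 3 (2 ^ (20003 * m)) ∧
    Nat.clog 3 (2 ^ (20003 * m)) ≤ 12621 * m := by
  refine ⟨?_, ?_, ?_, ?_⟩
  · have h : 2 ^ (20002 * m) ≤ 3 ^ (6310 * m) * 2 ^ (10002 * m) := by
      calc 2 ^ (20002 * m) = 2 ^ (10000 * m) * 2 ^ (10002 * m) := by
            rw [← pow_add]; congr 1; omega
        _ ≤ _ := Nat.mul_le_mul_right _ (pow_two_le_c m)
    calc 20002 * m = Nat.clog 2 (2 ^ (20002 * m)) := (Nat.clog_pow 2 _ (by norm_num)).symm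
      _ ≤ _ := Nat.clog_mono_right 2 h
  · have h : 3 ^ (6310 * m) * 2 ^ (10002 * m) ≤ 2 ^ (20004 * m) := by
      calc 3 ^ (6310 * m) * 2 ^ (10002 * m) ≤ 2 ^ (10002 * m) * 2 ^ (10002 * m) :=
            Nat.mul_le_mul_right _ (pow_three_le_b m)
        _ = 2 ^ (20004 * m) := by rw [← pow_add]; congr 1; omega
    calc _ ≤ Nat.clog 2 (2 ^ (20004 * m)) := Nat.clog_mono_right 2 h
      _ = 20004 * m := Nat.clog_pow 2 _ (by norm_num)
  · calc 12000 * m = Nat.clog 3 (3 ^ (12000 * m)) := (Nat.clog_pow 3 _ (by norm_num)).symm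
      _ ≤ _ := Nat.clog_mono_right 3 (pow_three_le_d m)
  · calc _ ≤ Nat.clog 3 (3 ^ (12621 * m)) := Nat.clog_mono_right 3 (pow_two_le_a m)
      _ = 12621 * m := Nat.clog_pow 3 _ (by norm_num)

/-- binomial coefficients decrease beyond the middle -/
theorem choose_anti (n k l : ℕ) (hk : n ≤ 2 * k) (hkl : k ≤ l) : n.choose l ≤ n.choose k := by
  induction l, hkl using Nat.le_induction with
  | base => exact le_rfl
  | succ l hl ih =>
    refine le_trans ?_ ih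
    have h := Nat.choose_succ_right_eq n l
    have h2 : n - l ≤ l + 1 := by omega
    have h3 : n.choose (l + 1) * (l + 1) ≤ n.choose l * (l + 1) := by
      rw [h]; exact Nat.mul_le_mul_left _ h2
    exact Nat.le_of_mul_le_mul_right h3 (Nat.succ_pos l)

/-- one repaired collision -/
theorem repair (m a b w q k2 v3 : ℕ) (hm : 160000 ≤ m)
    (h2 : s 2 ((3 ^ m * w) % 2 ^ a) = k2) (h3 : s 3 ((2 ^ m * w) % 3 ^ b) = v3)
    (ht : |(v3 : ℤ) - k2 + s 3 (2 ^ (a + m) * q + (2 ^ m * w) / 3 ^ b)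
      - s 2 (3 ^ (b + m) * q + (3 ^ m * w) / 2 ^ a)| ≤ ((m / 625 : ℕ) : ℤ)) :
    ∃ r : ℕ, r < 2 ^ m ∧ s 2 (2 ^ m * 3 ^ m * (w + 2 ^ a * 3 ^ b * q) + r)
      = s 3 (2 ^ m * 3 ^ m * (w + 2 ^ a * 3 ^ b * q) + r) := by
  obtain ⟨r, hr, hdr⟩ := windows m hm _ ht
  refine ⟨r, hr, ?_⟩
  have hr3 : r < 3 ^ m := lt_of_lt_of_le hr (Nat.pow_le_pow_left (by norm_num) m)
  have hd := d_concat m m (w + 2 ^ a * 3 ^ b * q) r hr hr3
  have e2 : 3 ^ m * (w + 2 ^ a * 3 ^ b * q)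
      = 2 ^ a * (3 ^ (b + m) * q + (3 ^ m * w) / 2 ^ a) + (3 ^ m * w) % 2 ^ a := by
    have := Nat.div_add_mod (3 ^ m * w) (2 ^ a)
    calc 3 ^ m * (w + 2 ^ a * 3 ^ b * q) = 2 ^ a * (3 ^ (b + m) * q) + 3 ^ m * w := by ring
      _ = 2 ^ a * (3 ^ (b + m) * q) + (2 ^ a * ((3 ^ m * w) / 2 ^ a) + (3 ^ m * w) % 2 ^ a) := by
          rw [this]
      _ = _ := by ring
  have e3 : 2 ^ m * (w + 2 ^ a * 3 ^ b * q)
      = 3 ^ b * (2 ^ (a + m) * q + (2 ^ m * w) / 3 ^ b) + (2 ^ m * w) % 3 ^ b := by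
    have := Nat.div_add_mod (2 ^ m * w) (3 ^ b)
    calc 2 ^ m * (w + 2 ^ a * 3 ^ b * q) = 3 ^ b * (2 ^ (a + m) * q) + 2 ^ m * w := by ring
      _ = 3 ^ b * (2 ^ (a + m) * q) + (3 ^ b * ((2 ^ m * w) / 3 ^ b) + (2 ^ m * w) % 3 ^ b) := by
          rw [this]
      _ = _ := by ring
  rw [e2, e3, s_concat 2 a _ _ (by norm_num) (Nat.mod_lt _ (by positivity)),
    s_concat 3 b _ _ (by norm_num) (Nat.mod_lt _ (by positivity)), h2, h3, hdr] at hd
  have h0 : d (2 ^ m * 3 ^ m * (w + 2 ^ a * 3 ^ b * q) + r) = 0 := by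
    rw [hd]; push_cast; ring
  unfold d at h0
  omega

/-- the number of good `q` -/
theorem good_count (A B g c c' δ : ℕ) (hc : c < 3 ^ B) (hc' : c' < 2 ^ A) (hB : 3 ^ B ≤ 2 ^ g)
    (hA : A + 2 ≤ g) (hδ : 2 * (19 * g + 21 * A + 80) ≤ δ ^ 2) (hδ0 : 0 < δ) :
    2 ^ g ≤ 2 * ((Finset.range (2 ^ g)).filter (fun q =>
        |2 * (s 2 (3 ^ B * q + c) : ℤ) - (Nat.clog 2 (3 ^ B * 2 ^ g) : ℤ)| < (δ : ℤ) ∧
        |2 * (s 3 (2 ^ A * q + c') : ℤ) - 2 * (Nat.clog 3 (2 ^ (A + g)) : ℤ)| < (δ : ℤ))).card := by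
  have h := good A B g c c' δ hc hc' hB hA
  set bad := (Finset.range (2 ^ g)).filter (fun q =>
        (δ : ℤ) ≤ |2 * (s 2 (3 ^ B * q + c) : ℤ) - (Nat.clog 2 (3 ^ B * 2 ^ g) : ℤ)| ∨
        (δ : ℤ) ≤ |2 * (s 3 (2 ^ A * q + c') : ℤ) - 2 * (Nat.clog 3 (2 ^ (A + g)) : ℤ)|) with hbad
  set gd := (Finset.range (2 ^ g)).filter (fun q =>
        |2 * (s 2 (3 ^ B * q + c) : ℤ) - (Nat.clog 2 (3 ^ B * 2 ^ g) : ℤ)| < (δ : ℤ) ∧
        |2 * (s 3 (2 ^ A * q + c') : ℤ) - 2 * (Nat.clog 3 (2 ^ (A + g)) : ℤ)| < (δ : ℤ)) with hgd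
  have h1 : bad.card + gd.card = 2 ^ g := by
    have := Finset.card_filter_add_card_filter_not (s := Finset.range (2 ^ g)) (fun q =>
        (δ : ℤ) ≤ |2 * (s 2 (3 ^ B * q + c) : ℤ) - (Nat.clog 2 (3 ^ B * 2 ^ g) : ℤ)| ∨
        (δ : ℤ) ≤ |2 * (s 3 (2 ^ A * q + c') : ℤ) - 2 * (Nat.clog 3 (2 ^ (A + g)) : ℤ)|)
    rw [Finset.card_range] at this
    rw [← this, hbad, hgd]
    congr 2
    apply Finset.filter_congr
    intro q _
    rw [not_or, not_le, not_le]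
  have h2 : 2 * bad.card ≤ 2 ^ g := by
    have h3 : (2 * bad.card) * δ ^ 2 ≤ 2 ^ g * δ ^ 2 := by
      calc (2 * bad.card) * δ ^ 2 = 2 * (bad.card * δ ^ 2) := by ring
        _ ≤ 2 * (2 ^ g * (19 * g + 21 * A + 80)) := Nat.mul_le_mul_left _ h
        _ = 2 ^ g * (2 * (19 * g + 21 * A + 80)) := by ring
        _ ≤ 2 ^ g * δ ^ 2 := Nat.mul_le_mul_left _ hδ
    exact Nat.le_of_mul_le_mul_right h3 (by positivity)
  omega

theorem count_lower : ∀ᶠ m : ℕ in Filter.atTop,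
    (10000 * m).choose (6492 * m) * ((6309 * m).choose (1860 * m) *
      (4449 * m).choose (1006 * m)) * 2 ^ (10002 * m) ≤
      2 * coll (2 ^ m * 3 ^ m * (2 ^ (10000 * m) * 3 ^ (6309 * m) * 2 ^ (10002 * m))) := by
  filter_upwards [Filter.eventually_ge_atTop 1000000000000] with m hm
  obtain ⟨hL2a, hL2b, hL3a, hL3b⟩ := clog_bounds m
  set L2 := Nat.clog 2 (3 ^ (6310 * m) * 2 ^ (10002 * m)) with hL2
  set L3 := Nat.clog 3 (2 ^ (20003 * m)) with hL3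
  obtain ⟨k2, hk2⟩ : ∃ k2 : ℕ, k2 = 3872 * m + L3 - L2 / 2 := ⟨_, rfl⟩
  have hk2a : 5000 * m ≤ k2 := by omega
  have hk2b : k2 ≤ 6492 * m := by omega
  set δ := m / 625 with hδdef
  have hδ0 : 0 < δ := by omega
  have hδ : 2 * (19 * (10002 * m) + 21 * (10001 * m) + 80) ≤ δ ^ 2 := by
    have h1 : m ≤ 625 * δ + 624 := by omega
    have h2 : 1000000 * 1000 ≤ δ := by omega
    nlinarith
  -- the set of the `w`
  set S := (Finset.range (2 ^ (10000 * m) * 3 ^ (6309 * m))).filter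
    (fun w => s 2 ((3 ^ m * w) % 2 ^ (10000 * m)) = k2 ∧
      s 3 ((2 ^ m * w) % 3 ^ (6309 * m)) = 1860 * m + 2 * (1006 * m)) with hS
  have hScard : (10000 * m).choose (6492 * m) * ((6309 * m).choose (1860 * m) *
      (4449 * m).choose (1006 * m)) ≤ S.card := by
    have h1 := crt_card (10000 * m) (6309 * m) m m (fun W => s 2 W = k2)
      (fun W => s 3 W = 1860 * m + 2 * (1006 * m))
    have h2 := card_bits (10000 * m) k2
    have h3 := card_trits (6309 * m) (1860 * m) (1006 * m)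
    have h4 : 6309 * m - 1860 * m = 4449 * m := by omega
    rw [h4] at h3
    have h5 : (10000 * m).choose (6492 * m) ≤ (10000 * m).choose k2 :=
      choose_anti _ _ _ (by omega) hk2b
    calc _ ≤ (10000 * m).choose k2 * _ := Nat.mul_le_mul_right _ h5
      _ ≤ (10000 * m).choose k2 * _ := Nat.mul_le_mul_left _ h3
      _ = _ := by rw [h2]
      _ ≤ _ := h1
  -- the good pairs
  set T : Finset (Σ _ : ℕ, ℕ) := S.sigma (fun w => (Finset.range (2 ^ (10002 * m))).filter (fun q =>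
        |2 * (s 2 (3 ^ (6310 * m) * q + (3 ^ m * w) / 2 ^ (10000 * m)) : ℤ)
          - (Nat.clog 2 (3 ^ (6310 * m) * 2 ^ (10002 * m)) : ℤ)| < (δ : ℤ) ∧
        |2 * (s 3 (2 ^ (10001 * m) * q + (2 ^ m * w) / 3 ^ (6309 * m)) : ℤ)
          - 2 * (Nat.clog 3 (2 ^ (10001 * m + 10002 * m)) : ℤ)| < (δ : ℤ))) with hT
  have hTcard : S.card * 2 ^ (10002 * m) ≤ 2 * T.card := by
    rw [hT, Finset.card_sigma, Finset.mul_sum, ← smul_eq_mul, ← Finset.sum_const]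
    apply Finset.sum_le_sum
    intro w hw
    rw [hS, Finset.mem_filter, Finset.mem_range] at hw
    apply good_count _ _ _ _ _ _ _ _ (pow_three_le_b m) (by omega) hδ hδ0
    · rw [Nat.div_lt_iff_lt_mul (by positivity)]
      calc 3 ^ m * w < 3 ^ m * (2 ^ (10000 * m) * 3 ^ (6309 * m)) :=
            Nat.mul_lt_mul_of_pos_left hw.1 (by positivity)
        _ = 3 ^ (6310 * m) * 2 ^ (10000 * m) := by
            rw [show 6310 * m = m + 6309 * m by omega, pow_add]; ring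
    · rw [Nat.div_lt_iff_lt_mul (by positivity)]
      calc 2 ^ m * w < 2 ^ m * (2 ^ (10000 * m) * 3 ^ (6309 * m)) :=
            Nat.mul_lt_mul_of_pos_left hw.1 (by positivity)
        _ = 2 ^ (10001 * m) * 3 ^ (6309 * m) := by
            rw [show 10001 * m = m + 10000 * m by omega, pow_add]; ring
  -- the collisions
  have hcoll : T.card ≤ coll (2 ^ m * 3 ^ m * (2 ^ (10000 * m) * 3 ^ (6309 * m)
      * 2 ^ (10002 * m))) := by
    unfold coll
    apply Finset.card_le_card_of_surjOn (fun n =>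
      (⟨n / (2 ^ m * 3 ^ m) % (2 ^ (10000 * m) * 3 ^ (6309 * m)),
        n / (2 ^ m * 3 ^ m) / (2 ^ (10000 * m) * 3 ^ (6309 * m))⟩ : Σ _ : ℕ, ℕ))
    rintro ⟨w, q⟩ hwq
    rw [Finset.mem_coe, hT, Finset.mem_sigma] at hwq
    obtain ⟨hwS, hqG⟩ := hwq
    dsimp only at hwS hqG
    rw [hS, Finset.mem_filter, Finset.mem_range] at hwS
    rw [Finset.mem_filter, Finset.mem_range] at hqG
    obtain ⟨hw, hw2, hw3⟩ := hwS
    obtain ⟨hq, hq2, hq3⟩ := hqG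
    have e1 : 10001 * m + 10002 * m = 20003 * m := by omega
    rw [e1, ← hL3] at hq3
    rw [← hL2] at hq2
    have hrep := repair m (10000 * m) (6309 * m) w q k2 (1860 * m + 2 * (1006 * m)) (by omega)
      hw2 hw3 (by
        rw [show 10000 * m + m = 10001 * m by omega, show 6309 * m + m = 6310 * m by omega]
        rw [abs_lt] at hq2 hq3
        rw [abs_le]
        obtain ⟨a1, a2⟩ := hq2
        obtain ⟨a3, a4⟩ := hq3
        have hk3 : (k2 : ℤ) = 3872 * m + L3 - ((L2 / 2 : ℕ) : ℤ) := by omega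
        constructor <;> push_cast at * <;> omega)
    obtain ⟨r, hr, hcol⟩ := hrep
    refine ⟨2 ^ m * 3 ^ m * (w + 2 ^ (10000 * m) * 3 ^ (6309 * m) * q) + r, ?_, ?_⟩
    · rw [Finset.mem_coe, Finset.mem_filter, Finset.mem_range]
      refine ⟨?_, hcol⟩
      have hr' : r < 2 ^ m * 3 ^ m := lt_of_lt_of_le hr
        (Nat.le_mul_of_pos_right _ (by positivity))
      have hM : w + 2 ^ (10000 * m) * 3 ^ (6309 * m) * q + 1
          ≤ 2 ^ (10000 * m) * 3 ^ (6309 * m) * 2 ^ (10002 * m) := by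
        calc _ ≤ 2 ^ (10000 * m) * 3 ^ (6309 * m)
              + 2 ^ (10000 * m) * 3 ^ (6309 * m) * q := by omega
          _ = 2 ^ (10000 * m) * 3 ^ (6309 * m) * (q + 1) := by ring
          _ ≤ _ := Nat.mul_le_mul_left _ hq
      calc _ < 2 ^ m * 3 ^ m * (w + 2 ^ (10000 * m) * 3 ^ (6309 * m) * q) + 2 ^ m * 3 ^ m := by
            omega
        _ = 2 ^ m * 3 ^ m * (w + 2 ^ (10000 * m) * 3 ^ (6309 * m) * q + 1) := by ring
        _ ≤ _ := Nat.mul_le_mul_left _ hM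
    · have hr' : r < 2 ^ m * 3 ^ m := lt_of_lt_of_le hr
        (Nat.le_mul_of_pos_right _ (by positivity))
      have e2 : (2 ^ m * 3 ^ m * (w + 2 ^ (10000 * m) * 3 ^ (6309 * m) * q) + r) / (2 ^ m * 3 ^ m)
          = w + 2 ^ (10000 * m) * 3 ^ (6309 * m) * q := by
        rw [Nat.mul_add_div (by positivity), Nat.div_eq_of_lt hr', add_zero]
      have e3 : (w + 2 ^ (10000 * m) * 3 ^ (6309 * m) * q)
          % (2 ^ (10000 * m) * 3 ^ (6309 * m)) = w := by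
        rw [Nat.add_mul_mod_self_left, Nat.mod_eq_of_lt hw]
      have e4 : (w + 2 ^ (10000 * m) * 3 ^ (6309 * m) * q)
          / (2 ^ (10000 * m) * 3 ^ (6309 * m)) = q := by
        rw [Nat.add_mul_div_left _ _ (by positivity), Nat.div_eq_of_lt hw, zero_add]
      simp only [e2, e3, e4]
  calc _ ≤ S.card * 2 ^ (10002 * m) := Nat.mul_le_mul_right _ hScard
    _ ≤ 2 * T.card := hTcard
    _ ≤ _ := Nat.mul_le_mul_left _ hcoll

end Pool.Agent.Helper36.DC
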