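import Mathlib

/-!
# Collisions of digit sums in bases 2 and 3: definitions
-/

namespace Pool.Agent.Helper36.DC

/-- The sum of the base `b` digits of `n`. -/
def s (b n : ℕ) : ℕ := (Nat.digits b n).sum

/-- Difference of the binary and the ternary sum of digits. -/
def d (n : ℕ) : ℤ := (s 2 n : ℤ) - (s 3 n : ℤ)

/-- The number of collisions below `N`. -/
def coll (N : ℕ) : ℕ := ((Finset.range N).filter (fun n => s 2 n = s 3 n)).card

/-- Windows: every integer `t` with `|t| ≤ w` is the value of `d` at some `r < 2 ^ u`. -/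
def Win (u w : ℕ) : Prop := ∀ t : ℤ, |t| ≤ (w : ℤ) → ∃ r : ℕ, r < 2 ^ u ∧ d r = t

end Pool.Agent.Helper36.DC
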