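import Pool.Agent.Helper36.DC.Defs

/-!
# Collisions of digit sums: the entropy bound for binomial coefficients (module DC-9)
-/

set_option autoImplicit false

open Finset

namespace Pool.Agent.Helper36.DC

/-- The terms of the binomial expansion of `(k + (n - k)) ^ n` increase up to the index `k`. -/
theorem term_up (n k j : ℕ) (hk : k ≤ n) (hj : j < k) :
    k ^ j * (n - k) ^ (n - j) * n.choose j ≤ k ^ (j + 1) * (n - k) ^ (n - (j + 1)) *
      n.choose (j + 1) := by
  rcases Nat.eq_zero_or_pos (n - k) with h0 | h0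
  · have : n - j ≠ 0 := by omega
    rw [h0, zero_pow this]
    simp
  · have h1 : n.choose (j + 1) * (j + 1) = n.choose j * (n - j) := Nat.choose_succ_right_eq n j
    have h2 : n - j = n - (j + 1) + 1 := by omega
    have h3 : (n - k) * (j + 1) ≤ k * (n - j) := by
      rw [mul_comm]; exact Nat.mul_le_mul (by omega) (by omega)
    refine Nat.le_of_mul_le_mul_right ?_ (show 0 < j + 1 by omega)
    calc k ^ j * (n - k) ^ (n - j) * n.choose j * (j + 1)
        = k ^ j * (n - k) ^ (n - (j + 1)) * n.choose j * ((n - k) * (j + 1)) := by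
          rw [h2, pow_succ]; ring
      _ ≤ k ^ j * (n - k) ^ (n - (j + 1)) * n.choose j * (k * (n - j)) :=
          Nat.mul_le_mul_left _ h3
      _ = k ^ (j + 1) * (n - k) ^ (n - (j + 1)) * (n.choose (j + 1) * (j + 1)) := by
          rw [h1, pow_succ]; ring
      _ = _ := by ring

/-- The terms of the binomial expansion of `(k + (n - k)) ^ n` decrease from the index `k` on. -/
theorem term_down (n k j : ℕ) (hk : k ≤ j) (hj : j < n) :
    k ^ (j + 1) * (n - k) ^ (n - (j + 1)) * n.choose (j + 1) ≤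
      k ^ j * (n - k) ^ (n - j) * n.choose j := by
  have h1 : n.choose (j + 1) * (j + 1) = n.choose j * (n - j) := Nat.choose_succ_right_eq n j
  have h2 : n - j = n - (j + 1) + 1 := by omega
  have h3 : k * (n - j) ≤ (n - k) * (j + 1) := by
    rw [mul_comm (n - k)]; exact Nat.mul_le_mul (by omega) (by omega)
  refine Nat.le_of_mul_le_mul_right ?_ (show 0 < j + 1 by omega)
  calc k ^ (j + 1) * (n - k) ^ (n - (j + 1)) * n.choose (j + 1) * (j + 1)
      = k ^ (j + 1) * (n - k) ^ (n - (j + 1)) * (n.choose (j + 1) * (j + 1)) := by ring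
    _ = k ^ j * (n - k) ^ (n - (j + 1)) * n.choose j * (k * (n - j)) := by
        rw [h1, pow_succ]; ring
    _ ≤ k ^ j * (n - k) ^ (n - (j + 1)) * n.choose j * ((n - k) * (j + 1)) :=
        Nat.mul_le_mul_left _ h3
    _ = k ^ j * (n - k) ^ (n - j) * n.choose j * (j + 1) := by
        conv_rhs => rw [h2, pow_succ]
        ring

/-- The largest term of the binomial expansion of `(k + (n - k)) ^ n` has index `k`. -/
theorem term_le (n k j : ℕ) (hk : k ≤ n) (hj : j ≤ n) :
    k ^ j * (n - k) ^ (n - j) * n.choose j ≤ k ^ k * (n - k) ^ (n - k) * n.choose k := by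
  rcases le_total j k with h | h
  · obtain ⟨e, rfl⟩ := Nat.exists_eq_add_of_le h
    clear h
    have key : ∀ i : ℕ, i ≤ e → (j + e) ^ j * (n - (j + e)) ^ (n - j) * n.choose j ≤
        (j + e) ^ (j + i) * (n - (j + e)) ^ (n - (j + i)) * n.choose (j + i) := by
      intro i
      induction i with
      | zero => intro _; exact le_rfl
      | succ i ih =>
        intro hi
        exact (ih (by omega)).trans (term_up n (j + e) (j + i) hk (by omega))
    exact key e le_rfl
  · induction j, h using Nat.le_induction with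
    | base => exact le_rfl
    | succ j hkj ih => exact (term_down n k j hkj (by omega)).trans (ih (by omega))

theorem choose_entropy (n k : ℕ) (hk : k ≤ n) :
    n ^ n ≤ (n + 1) * n.choose k * (k ^ k * (n - k) ^ (n - k)) := by
  have h1 : n ^ n = ∑ j ∈ range (n + 1), k ^ j * (n - k) ^ (n - j) * n.choose j := by
    conv_lhs => rw [show n = k + (n - k) by omega]
    rw [show k + (n - k) = n by omega]
    have := add_pow k (n - k) n
    rwa [show k + (n - k) = n by omega] at this
  rw [h1]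
  calc ∑ j ∈ range (n + 1), k ^ j * (n - k) ^ (n - j) * n.choose j
      ≤ ∑ _j ∈ range (n + 1), k ^ k * (n - k) ^ (n - k) * n.choose k :=
        sum_le_sum fun j hj => term_le n k j hk (by have := mem_range.1 hj; omega)
    _ = (n + 1) * n.choose k * (k ^ k * (n - k) ^ (n - k)) := by
        rw [sum_const, card_range, smul_eq_mul]; ring

theorem num1 : 2 ^ 9347 * (6492 ^ 6492 * 3508 ^ 3508) ≤ 10000 ^ 10000 := by
  decide +kernel

theorem num2 : 2 ^ 8950 * (3443 ^ 3443 * 1860 ^ 1860 * 1006 ^ 1006) ≤ 6309 ^ 6309 := by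
  decide +kernel

/-- Cancelling the powers of `m`. -/
theorem cancel_pow (m : ℕ) (hm : 0 < m) (a b c P u v : ℕ) (h : a * m = b * m + c * m)
    (e : (a * m) ^ (a * m) ≤ (u * m + v) * P * ((b * m) ^ (b * m) * (c * m) ^ (c * m))) :
    a ^ (a * m) ≤ (u * m + v) * P * (b ^ (b * m) * c ^ (c * m)) := by
  refine Nat.le_of_mul_le_mul_right ?_ (show 0 < m ^ (a * m) by positivity)
  calc a ^ (a * m) * m ^ (a * m) = (a * m) ^ (a * m) := (mul_pow _ _ _).symm
    _ ≤ _ := e
    _ = (u * m + v) * P * (b ^ (b * m) * c ^ (c * m)) * (m ^ (b * m) * m ^ (c * m)) := by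
        rw [mul_pow b, mul_pow c]; ring
    _ = _ := by rw [← pow_add, ← h]

/-- the final size of the number of choices -/
theorem entropy_final (m : ℕ) :
    2 ^ (18297 * m) ≤ (10000 * m + 1) ^ 3 * ((10000 * m).choose (6492 * m) *
      ((6309 * m).choose (1860 * m) * (4449 * m).choose (1006 * m))) := by
  rcases Nat.eq_zero_or_pos m with h0 | hm
  · subst h0; simp
  have e1 := choose_entropy (10000 * m) (6492 * m) (by omega)
  have e2 := choose_entropy (6309 * m) (1860 * m) (by omega)
  have e3 := choose_entropy (4449 * m) (1006 * m) (by omega)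
  rw [show 10000 * m - 6492 * m = 3508 * m by omega] at e1
  rw [show 6309 * m - 1860 * m = 4449 * m by omega] at e2
  rw [show 4449 * m - 1006 * m = 3443 * m by omega] at e3
  generalize (10000 * m).choose (6492 * m) = C1 at *
  generalize (6309 * m).choose (1860 * m) = C2 at *
  generalize (4449 * m).choose (1006 * m) = C3 at *
  have n1 : (2 ^ 9347 * (6492 ^ 6492 * 3508 ^ 3508)) ^ m ≤ (10000 ^ 10000) ^ m :=
    Nat.pow_le_pow_left num1 m
  have n2 : (2 ^ 8950 * (3443 ^ 3443 * 1860 ^ 1860 * 1006 ^ 1006)) ^ m ≤ (6309 ^ 6309) ^ m :=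
    Nat.pow_le_pow_left num2 m
  have hP : (10000 * m + 1) * (6309 * m + 1) * (4449 * m + 1) ≤ (10000 * m + 1) ^ 3 := by
    calc (10000 * m + 1) * (6309 * m + 1) * (4449 * m + 1)
        ≤ (10000 * m + 1) * (10000 * m + 1) * (10000 * m + 1) :=
          Nat.mul_le_mul (Nat.mul_le_mul le_rfl (by omega)) (by omega)
      _ = _ := by ring
  have f1 : 10000 ^ (10000 * m) ≤ (10000 * m + 1) * C1 * (6492 ^ (6492 * m) * 3508 ^ (3508 * m)) :=
    cancel_pow m hm _ _ _ _ _ _ (by omega) e1
  have f2 : 6309 ^ (6309 * m) ≤ (6309 * m + 1) * C2 * (1860 ^ (1860 * m) * 4449 ^ (4449 * m)) :=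
    cancel_pow m hm _ _ _ _ _ _ (by omega) e2
  have f3 : 4449 ^ (4449 * m) ≤ (4449 * m + 1) * C3 * (1006 ^ (1006 * m) * 3443 ^ (3443 * m)) :=
    cancel_pow m hm _ _ _ _ _ _ (by omega) e3
  simp only [mul_pow, ← pow_mul] at n1 n2
  have hu : 2 ^ (18297 * m) = 2 ^ (9347 * m) * 2 ^ (8950 * m) := by
    rw [← pow_add]; congr 1; ring
  rw [hu]
  have p1 : 0 < 6492 ^ (6492 * m) := by positivity
  have p2 : 0 < 3508 ^ (3508 * m) := by positivity
  have p3 : 0 < 1860 ^ (1860 * m) := by positivity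
  have p4 : 0 < 4449 ^ (4449 * m) := by positivity
  have p5 : 0 < 1006 ^ (1006 * m) := by positivity
  have p6 : 0 < 3443 ^ (3443 * m) := by positivity
  generalize 6492 ^ (6492 * m) = x1 at *
  generalize 3508 ^ (3508 * m) = x2 at *
  generalize 1860 ^ (1860 * m) = y1 at *
  generalize 4449 ^ (4449 * m) = c at *
  generalize 1006 ^ (1006 * m) = z1 at *
  generalize 3443 ^ (3443 * m) = z2 at *
  generalize 10000 ^ (10000 * m) = a at *
  generalize 6309 ^ (6309 * m) = b at *
  generalize 2 ^ (9347 * m) = u1 at *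
  generalize 2 ^ (8950 * m) = u2 at *
  refine Nat.le_of_mul_le_mul_right ?_
    (show 0 < x1 * x2 * (y1 * z1 * z2) * c by positivity)
  calc u1 * u2 * (x1 * x2 * (y1 * z1 * z2) * c)
      = (u1 * (x1 * x2)) * (u2 * (z2 * y1 * z1)) * c := by ring
    _ ≤ a * b * c := Nat.mul_le_mul (Nat.mul_le_mul n1 n2) le_rfl
    _ ≤ ((10000 * m + 1) * C1 * (x1 * x2)) * ((6309 * m + 1) * C2 * (y1 * c)) *
        ((4449 * m + 1) * C3 * (z1 * z2)) := Nat.mul_le_mul (Nat.mul_le_mul f1 f2) f3
    _ = ((10000 * m + 1) * (6309 * m + 1) * (4449 * m + 1)) * ((C1 * (C2 * C3)) *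
        (x1 * x2 * (y1 * z1 * z2) * c)) := by ring
    _ ≤ (10000 * m + 1) ^ 3 * ((C1 * (C2 * C3)) * (x1 * x2 * (y1 * z1 * z2) * c)) :=
        Nat.mul_le_mul_right _ hP
    _ = _ := by ring

end Pool.Agent.Helper36.DC
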