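import Pool.Agent.Helper36.DC.Count
import Pool.Agent.Helper36.DC.Entropy

/-!
# The lower bound for the number of collisions
-/

namespace Pool.Agent.Helper36.DC

theorem coll_mono {M N : ℕ} (h : M ≤ N) : coll M ≤ coll N := by
  unfold coll
  apply Finset.card_le_card
  apply Finset.filter_subset_filter
  exact Finset.range_subset_range.mpr h

theorem nat_bound : ∀ᶠ m : ℕ in Filter.atTop,
    2 * (10000 * m + 1) ^ 3 * 2 ^ (28295 * (m + 1)) ≤ 2 ^ (28299 * m) := by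
  have h := tendsto_pow_const_div_const_pow_of_one_lt 3 (by norm_num : (1 : ℝ) < 16)
  obtain ⟨C, hC⟩ : ∃ C : ℝ, C = 2 * 10001 ^ 3 * 2 ^ 28295 := ⟨_, rfl⟩
  have hCpos : 0 < C := by rw [hC]; positivity
  have h2 : ∀ᶠ m : ℕ in Filter.atTop, (m : ℝ) ^ 3 / 16 ^ m < 1 / C :=
    h.eventually (gt_mem_nhds (by positivity))
  filter_upwards [h2, Filter.eventually_ge_atTop 1] with m hm hm1
  have h16 : (0 : ℝ) < 16 ^ m := by positivity
  rw [div_lt_div_iff₀ h16 hCpos] at hm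
  have h3 : ((2 * (10000 * m + 1) ^ 3 * 2 ^ (28295 * (m + 1)) : ℕ) : ℝ)
      ≤ ((2 ^ (28299 * m) : ℕ) : ℝ) := by
    push_cast
    have e1 : (2 : ℝ) ^ (28299 * m) = 2 ^ (28295 * m) * 16 ^ m := by
      rw [show 28299 * m = 28295 * m + 4 * m by ring, pow_add, pow_mul 2 4 m]
      norm_num
    have e2 : (2 : ℝ) ^ (28295 * (m + 1)) = 2 ^ (28295 * m) * 2 ^ 28295 := by
      rw [mul_add, mul_one, pow_add]
    have hm1' : (1 : ℝ) ≤ m := by exact_mod_cast hm1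
    have e3 : (10000 * (m : ℝ) + 1) ^ 3 ≤ (10001 * (m : ℝ)) ^ 3 := by
      apply pow_le_pow_left₀ (by positivity)
      linarith
    rw [e1, e2]
    have hP : (0 : ℝ) < 2 ^ (28295 * m) := by positivity
    calc 2 * (10000 * (m : ℝ) + 1) ^ 3 * (2 ^ (28295 * m) * 2 ^ 28295)
        ≤ 2 * (10001 * (m : ℝ)) ^ 3 * (2 ^ (28295 * m) * 2 ^ 28295) := by gcongr
      _ = 2 ^ (28295 * m) * ((m : ℝ) ^ 3 * C) := by rw [hC]; ring
      _ ≤ 2 ^ (28295 * m) * (1 * 16 ^ m) := by gcongr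
      _ = _ := by ring
  exact_mod_cast h3

theorem aux_pow (A B P m : ℕ) (h : A ≤ B) : P * A ^ m ≤ P * B ^ m :=
  Nat.mul_le_mul_left _ (Nat.pow_le_pow_left h m)

theorem aux_chain (P Q R X Y C : ℕ) (h1 : P ≤ R * X) (h2 : X * Q ≤ 2 * Y) (h3 : Y ≤ C) :
    P * Q ≤ R * (2 * C) := by
  calc P * Q ≤ R * X * Q := Nat.mul_le_mul_right _ h1
    _ = R * (X * Q) := by ring
    _ ≤ R * (2 * Y) := Nat.mul_le_mul_left _ h2
    _ ≤ R * (2 * C) := Nat.mul_le_mul_left _ (Nat.mul_le_mul_left _ h3)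

theorem aux_cancel (R P Q C : ℕ) (hR : 0 < R) (h1 : 2 * R * P ≤ Q) (h2 : Q ≤ R * (2 * C)) :
    P ≤ C := by
  have h3 : (2 * R) * P ≤ (2 * R) * C := by
    calc (2 * R) * P ≤ Q := h1
      _ ≤ R * (2 * C) := h2
      _ = _ := by ring
  exact Nat.le_of_mul_le_mul_left h3 (by positivity)

theorem three_pow : 3 ^ 6310 ≤ 2 ^ 10002 := by decide +kernel

theorem lower : ∀ᶠ N : ℕ in Filter.atTop, (N : ℝ) ^ (0.943 : ℝ) ≤ (coll N : ℝ) := by
  have hm := count_lower.and nat_bound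
  obtain ⟨m0, hm0⟩ := Filter.eventually_atTop.mp hm
  filter_upwards [Filter.eventually_ge_atTop (2 ^ (30005 * m0))] with N hN
  have hN1 : 1 ≤ N := le_trans Nat.one_le_two_pow hN
  obtain ⟨m, hmdef⟩ : ∃ m, m = Nat.log 2 N / 30005 := ⟨_, rfl⟩
  have hlog1 : 2 ^ Nat.log 2 N ≤ N := Nat.pow_log_le_self 2 (by omega)
  have hlog2 : N < 2 ^ (Nat.log 2 N + 1) := Nat.lt_pow_succ_log_self (by norm_num) N
  have hmge : m0 ≤ m := by
    rw [hmdef, Nat.le_div_iff_mul_le (by norm_num)]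
    have := Nat.le_log_of_pow_le (by norm_num : 1 < 2) hN
    linarith [mul_comm 30005 m0]
  obtain ⟨hc, hb⟩ := hm0 m hmge
  have hle : 30005 * m ≤ Nat.log 2 N := by rw [hmdef]; exact Nat.mul_div_le _ _
  have hlt : Nat.log 2 N + 1 ≤ 30005 * (m + 1) := by omega
  -- the size of `N_m`
  have hNm : 2 ^ m * 3 ^ m * (2 ^ (10000 * m) * 3 ^ (6309 * m) * 2 ^ (10002 * m)) ≤ N := by
    calc 2 ^ m * 3 ^ m * (2 ^ (10000 * m) * 3 ^ (6309 * m) * 2 ^ (10002 * m))
        = 2 ^ (20003 * m) * (3 ^ 6310) ^ m := by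
          rw [← pow_mul]
          have e1 : 20003 * m = m + 10000 * m + 10002 * m := by ring
          have e2 : 6310 * m = m + 6309 * m := by ring
          rw [e1, e2, pow_add, pow_add, pow_add]
          ring
      _ ≤ 2 ^ (20003 * m) * (2 ^ 10002) ^ m := aux_pow _ _ _ _ three_pow
      _ = 2 ^ (30005 * m) := by rw [← pow_mul, ← pow_add]; congr 1; ring
      _ ≤ 2 ^ Nat.log 2 N := Nat.pow_le_pow_right (by norm_num) hle
      _ ≤ N := hlog1
  have hmono := coll_mono hNm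
  have hent := entropy_final m
  obtain ⟨X, hX⟩ : ∃ X, X = (10000 * m).choose (6492 * m) * ((6309 * m).choose (1860 * m) *
      (4449 * m).choose (1006 * m)) := ⟨_, rfl⟩
  rw [← hX] at hent hc
  have hexp : 2 ^ (28299 * m) = 2 ^ (18297 * m) * 2 ^ (10002 * m) := by
    rw [← pow_add]; congr 1; ring
  have h28 : 2 ^ (28299 * m) ≤ (10000 * m + 1) ^ 3 * (2 * coll N) := by
    rw [hexp]
    exact aux_chain _ _ _ _ _ _ hent hc hmono
  have hR : 0 < (10000 * m + 1) ^ 3 := by positivity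
  have h29 : 2 ^ (28295 * (m + 1)) ≤ coll N :=
    aux_cancel _ _ _ _ hR hb h28
  have hNle : (N : ℝ) ≤ (2 : ℝ) ^ (30005 * (m + 1)) := by
    have : N ≤ 2 ^ (30005 * (m + 1)) :=
      le_trans hlog2.le (Nat.pow_le_pow_right (by norm_num) hlt)
    exact_mod_cast this
  calc (N : ℝ) ^ (0.943 : ℝ) ≤ ((2 : ℝ) ^ (30005 * (m + 1))) ^ (0.943 : ℝ) := by
        apply Real.rpow_le_rpow (by positivity) hNle (by norm_num)
    _ = (2 : ℝ) ^ ((30005 * (m + 1) : ℕ) * (0.943 : ℝ)) := by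
        rw [← Real.rpow_natCast, ← Real.rpow_mul (by norm_num)]
    _ ≤ (2 : ℝ) ^ (((28295 * (m + 1) : ℕ) : ℝ)) := by
        apply Real.rpow_le_rpow_of_exponent_le (by norm_num)
        push_cast
        have : (0 : ℝ) ≤ m := by positivity
        nlinarith
    _ = ((2 ^ (28295 * (m + 1)) : ℕ) : ℝ) := by
        rw [Real.rpow_natCast, Nat.cast_pow, Nat.cast_ofNat]
    _ ≤ (coll N : ℝ) := Nat.cast_le.mpr h29

end Pool.Agent.Helper36.DC
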