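import Pool.Agent.Helper36.DC.Defs
import Pool.Agent.Helper36.DC.Digits
import Pool.Agent.Helper36.DC.Good

/-!
# The window step
-/

namespace Pool.Agent.Helper36.DC

theorem step (u : ℕ) (hu : 160000 ≤ u) (hW : Win u (u / 25)) : Win (25 * u) u := by
  intro t ht
  set g : ℕ := 12 * u with hg
  set L3 : ℕ := Nat.clog 3 (2 ^ (u + g)) with hL3
  have e13 : u + g = 13 * u := by omega
  -- bounds for `L3`
  have hL3le : L3 ≤ 9 * u := by
    refine Nat.clog_le_of_le_pow ?_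
    rw [e13, pow_mul, pow_mul]
    exact Nat.pow_le_pow_left (by norm_num) u
  have hL3ge : 8 * u ≤ L3 := by
    by_contra hlt
    push Not at hlt
    have h1 : 2 ^ (u + g) ≤ 3 ^ L3 := Nat.le_pow_clog (by norm_num) _
    have h2 : 3 ^ L3 < 3 ^ (8 * u) := Nat.pow_lt_pow_right (by norm_num) hlt
    have h3 : 3 ^ (8 * u) ≤ 2 ^ (u + g) := by
      rw [e13, pow_mul, pow_mul]
      exact Nat.pow_le_pow_left (by norm_num) u
    omega
  have ht' := abs_le.1 ht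
  obtain ⟨T, hT⟩ : ∃ T : ℕ, (T : ℤ) = 2 * t + 2 * L3 := ⟨(2 * t + 2 * L3).toNat, by omega⟩
  have hT1 : 14 * u ≤ T := by omega
  have hT2 : T ≤ 20 * u := by omega
  obtain ⟨k, hk⟩ : ∃ k : ℕ, T + 1 = g + k := ⟨T + 1 - g, by omega⟩
  have hk1 : 2 * u ≤ k := by omega
  have hk2 : k ≤ g := by omega
  set j : ℕ := Nat.log 3 (2 ^ k) with hj
  have hj1 : 3 ^ j ≤ 2 ^ k := Nat.pow_log_le_self 3 (by positivity)
  have hj2 : 2 ^ k < 3 ^ (j + 1) := Nat.lt_pow_succ_log_self (by norm_num) _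
  have hju : u ≤ j := by
    refine Nat.le_log_of_pow_le (by norm_num) ?_
    calc 3 ^ u ≤ 4 ^ u := Nat.pow_le_pow_left (by norm_num) u
      _ = 2 ^ (2 * u) := by rw [pow_mul]; norm_num
      _ ≤ 2 ^ k := Nat.pow_le_pow_right (by norm_num) hk1
  have hjg : 3 ^ j ≤ 2 ^ g := hj1.trans (Nat.pow_le_pow_right (by norm_num) hk2)
  -- `L2`
  set L2 : ℕ := Nat.clog 2 (3 ^ j * 2 ^ g) with hL2
  have hL2le : L2 ≤ T + 1 := by
    refine Nat.clog_le_of_le_pow ?_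
    rw [hk, Nat.add_comm g k, pow_add]
    exact Nat.mul_le_mul_right _ hj1
  have hL2ge : T ≤ L2 := by
    by_contra hlt
    push Not at hlt
    have h1 : 3 ^ j * 2 ^ g ≤ 2 ^ L2 := Nat.le_pow_clog (by norm_num) _
    have h2 : 2 ^ L2 ≤ 2 ^ (T - 1) := Nat.pow_le_pow_right (by norm_num) (by omega)
    have h3 : 4 * 2 ^ (T - 1) = 2 ^ k * 2 ^ g := by
      have : T - 1 + 2 = k + g := by omega
      rw [← pow_add, ← this, pow_add]
      ring
    have h4 : 2 ^ k * 2 ^ g < 3 ^ (j + 1) * 2 ^ g := Nat.mul_lt_mul_of_pos_right hj2 (by positivity)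
    have h5 : 3 ^ (j + 1) * 2 ^ g = 3 * (3 ^ j * 2 ^ g) := by ring
    omega
  -- a good `q`
  set δ : ℕ := u / 25 with hδ
  have hδ1 : u ≤ 25 * δ + 24 := by omega
  have hδ2 : 6400 ≤ δ := by omega
  have hgood := good u j g 0 0 δ (by positivity) (by positivity) hjg (by omega)
  obtain ⟨q, hq, hq1, hq2⟩ : ∃ q < 2 ^ g,
      |2 * (s 2 (3 ^ j * q + 0) : ℤ) - (L2 : ℤ)| < δ ∧
      |2 * (s 3 (2 ^ u * q + 0) : ℤ) - 2 * (L3 : ℤ)| < δ := by
    by_contra hcon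
    push Not at hcon
    have hall : ((Finset.range (2 ^ g)).filter (fun q =>
        (δ : ℤ) ≤ |2 * (s 2 (3 ^ j * q + 0) : ℤ) - (Nat.clog 2 (3 ^ j * 2 ^ g) : ℤ)| ∨
        (δ : ℤ) ≤ |2 * (s 3 (2 ^ u * q + 0) : ℤ) - 2 * (Nat.clog 3 (2 ^ (u + g)) : ℤ)|)) =
        Finset.range (2 ^ g) := by
      refine Finset.filter_true_of_mem fun q hq => ?_
      by_cases h1 : (δ : ℤ) ≤ |2 * (s 2 (3 ^ j * q + 0) : ℤ) - (L2 : ℤ)|
      · exact Or.inl h1
      · exact Or.inr (hcon q (Finset.mem_range.1 hq) (not_le.1 h1))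
    rw [hall, Finset.card_range] at hgood
    have h1 : δ ^ 2 ≤ 19 * g + 21 * u + 80 :=
      Nat.le_of_mul_le_mul_left hgood (by positivity)
    have h2 : 19 * g + 21 * u + 80 < δ ^ 2 := by
      rw [hg]
      nlinarith
    omega
  rw [Nat.add_zero] at hq1 hq2
  set D : ℤ := (s 2 (3 ^ j * q) : ℤ) - (s 3 (2 ^ u * q) : ℤ) with hD
  have hDt : |t - D| ≤ (δ : ℤ) := by
    rw [abs_lt] at hq1 hq2
    rw [abs_le]
    constructor <;> omega
  obtain ⟨r, hr, hdr⟩ := hW (t - D) hDt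
  have hr3 : r < 3 ^ j := by
    calc r < 2 ^ u := hr
      _ ≤ 3 ^ u := Nat.pow_le_pow_left (by norm_num) u
      _ ≤ 3 ^ j := Nat.pow_le_pow_right (by norm_num) hju
  refine ⟨2 ^ u * 3 ^ j * q + r, ?_, ?_⟩
  · calc 2 ^ u * 3 ^ j * q + r < 2 ^ u * 3 ^ j * q + 2 ^ u * 3 ^ j := by
          refine Nat.add_lt_add_left ?_ _
          calc r < 2 ^ u := hr
            _ = 2 ^ u * 1 := (mul_one _).symm
            _ ≤ 2 ^ u * 3 ^ j := Nat.mul_le_mul_left _ (Nat.one_le_pow _ _ (by norm_num))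
      _ = 2 ^ u * 3 ^ j * (q + 1) := by ring
      _ ≤ 2 ^ u * 2 ^ g * 2 ^ g := Nat.mul_le_mul (Nat.mul_le_mul_left _ hjg) hq
      _ = 2 ^ (25 * u) := by
          rw [← pow_add, ← pow_add, hg]
          congr 1
          ring
  · rw [d_concat u j q r hr hr3, hdr]
    omega

end Pool.Agent.Helper36.DC
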