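import Pool.Agent.Helper36.DC.Defs

/-!
Exact statements of the modules DC-1 .. DC-10 (with `sorry`; never imported by a hand-in).
-/

namespace Pool.Agent.Helper36.DC.Stmts

open Pool.Agent.Helper36.DC

/-! ## DC-1 Digits.lean -/

theorem s_concat (b k m r : ℕ) (hb : 2 ≤ b) (hr : r < b ^ k) :
    s b (b ^ k * m + r) = s b m + s b r := by sorry

theorem s_le (b k r : ℕ) (hb : 2 ≤ b) (hr : r < b ^ k) : s b r ≤ (b - 1) * k := by sorry

theorem d_concat (i j q r : ℕ) (h2 : r < 2 ^ i) (h3 : r < 3 ^ j) :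
    d (2 ^ i * 3 ^ j * q + r) = (s 2 (3 ^ j * q) : ℤ) - (s 3 (2 ^ i * q) : ℤ) + d r := by sorry

/-! ## DC-2 Moment.lean -/

theorem sum_pow_digits (b K : ℕ) (hb : 2 ≤ b) (x : ℝ) :
    ∑ n ∈ Finset.range (b ^ K), x ^ (s b n) = (∑ r ∈ Finset.range b, x ^ r) ^ K := by sorry

theorem moment (b K : ℕ) (hb : 2 ≤ b) :
    3 * ∑ n ∈ Finset.range (b ^ K), (2 * (s b n : ℤ) - ((b : ℤ) - 1) * K) ^ 2
      = K * ((b : ℤ) ^ 2 - 1) * (b : ℤ) ^ K := by sorry

/-! ## DC-3 AP.lean (uses DC-1, DC-2) -/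

theorem ap_moment (b A c Q K K' : ℕ) (hb : 2 ≤ b) (hA : Nat.Coprime A b) (hc : c < A)
    (h1 : A ≤ b ^ K) (h2 : b ^ K ≤ Q) (h3 : A * Q ≤ b ^ (K + K'))
    (h4 : b ^ (K + K') ≤ b * (A * Q)) :
    3 * ∑ q ∈ Finset.range Q,
        (2 * (s b (A * q + c) : ℤ) - ((b : ℤ) - 1) * ((K : ℤ) + K')) ^ 2
      ≤ 4 * ((b : ℤ) ^ 2 - 1) * Q * ((K : ℤ) + b * K') := by sorry

/-! ## DC-4 Good.lean (uses DC-3) -/

theorem good (A B g c c' δ : ℕ) (hc : c < 3 ^ B) (hc' : c' < 2 ^ A) (hB : 3 ^ B ≤ 2 ^ g)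
    (hA : A + 2 ≤ g) :
    ((Finset.range (2 ^ g)).filter (fun q =>
        (δ : ℤ) ≤ |2 * (s 2 (3 ^ B * q + c) : ℤ) - (Nat.clog 2 (3 ^ B * 2 ^ g) : ℤ)| ∨
        (δ : ℤ) ≤ |2 * (s 3 (2 ^ A * q + c') : ℤ) - 2 * (Nat.clog 3 (2 ^ (A + g)) : ℤ)|)).card
      * δ ^ 2 ≤ 2 ^ g * (19 * g + 21 * A + 80) := by sorry

/-! ## DC-5 Step.lean (uses DC-1, DC-4) -/

theorem step (u : ℕ) (hu : 160000 ≤ u) (hW : Win u (u / 25)) : Win (25 * u) u := by sorry

/-! ## DC-6 Base.lean (uses DC-1) -/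

theorem base : Win 160000 6400 := by sorry

/-! ## DC-7 Windows.lean (uses DC-5, DC-6) -/

theorem windows (u : ℕ) (hu : 160000 ≤ u) : Win u (u / 625) := by sorry

/-! ## DC-8 Count.lean (uses DC-1, DC-4, DC-7) -/

/-- number of binary words of length `a` with `k` ones (independent) -/
theorem card_bits (a k : ℕ) :
    ((Finset.range (2 ^ a)).filter (fun W => s 2 W = k)).card = a.choose k := by sorry

/-- a lower bound for the number of ternary words of length `b` with `n1` ones and `n2` twos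
(independent) -/
theorem card_trits (b n1 n2 : ℕ) :
    b.choose n1 * (b - n1).choose n2 ≤
      ((Finset.range (3 ^ b)).filter (fun W => s 3 W = n1 + 2 * n2)).card := by sorry

/-- Chinese remainders with multipliers (independent) -/
theorem crt_card (a b i j : ℕ) (S2 S3 : ℕ → Prop) [DecidablePred S2] [DecidablePred S3] :
    ((Finset.range (2 ^ a)).filter S2).card * ((Finset.range (3 ^ b)).filter S3).card ≤
      ((Finset.range (2 ^ a * 3 ^ b)).filter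
        (fun w => S2 ((3 ^ j * w) % 2 ^ a) ∧ S3 ((2 ^ i * w) % 3 ^ b))).card := by sorry

theorem count_lower : ∀ᶠ m : ℕ in Filter.atTop,
    (10000 * m).choose (6492 * m) * ((6309 * m).choose (1860 * m) *
      (4449 * m).choose (1006 * m)) * 2 ^ (10002 * m) ≤
      2 * coll (2 ^ m * 3 ^ m * (2 ^ (10000 * m) * 3 ^ (6309 * m) * 2 ^ (10002 * m))) := by sorry

/-! ## DC-9 Entropy.lean (independent) -/

theorem choose_entropy (n k : ℕ) (hk : k ≤ n) :
    n ^ n ≤ (n + 1) * n.choose k * (k ^ k * (n - k) ^ (n - k)) := by sorry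

/-- the final size of the number of choices -/
theorem entropy_final (m : ℕ) :
    2 ^ (18297 * m) ≤ (10000 * m + 1) ^ 3 * ((10000 * m).choose (6492 * m) *
      ((6309 * m).choose (1860 * m) * (4449 * m).choose (1006 * m))) := by sorry

/-! ## DC-10 Upper.lean (uses DC-2) -/

theorem upper : ∀ᶠ N : ℕ in Filter.atTop, (coll N : ℝ) ≤ (N : ℝ) ^ (0.991 : ℝ) := by sorry

/-! ## DC-11 Main.lean (assembly) -/

theorem lower : ∀ᶠ N : ℕ in Filter.atTop, (N : ℝ) ^ (0.943 : ℝ) ≤ (coll N : ℝ) := by sorry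

end Pool.Agent.Helper36.DC.Stmts
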