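import Pool.Agent.Helper36.DC.Defs

/-!
# DC-10: the upper bound for the number of collisions
-/

namespace Pool.Agent.Helper36.DC

namespace UpperAux

theorem s_rec (b n : ℕ) (hb : 2 ≤ b) : s b n = n % b + s b (n / b) := by
  unfold s
  rcases Nat.eq_zero_or_pos n with h | h
  · subst h; simp
  · rw [Nat.digits_def' (by omega) h]; simp

theorem sum_range_mul (b M : ℕ) (f : ℕ → ℝ) :
    ∑ n ∈ Finset.range (b * M), f n
      = ∑ m ∈ Finset.range M, ∑ r ∈ Finset.range b, f (b * m + r) := by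
  induction M with
  | zero => simp
  | succ M ih =>
    rw [Nat.mul_succ, Finset.sum_range_add, ih, Finset.sum_range_succ]

theorem sum_pow (b K : ℕ) (hb : 2 ≤ b) (x : ℝ) :
    ∑ n ∈ Finset.range (b ^ K), x ^ (s b n) = (∑ r ∈ Finset.range b, x ^ r) ^ K := by
  induction K with
  | zero => simp [s]
  | succ K ih =>
    rw [pow_succ', sum_range_mul, pow_succ, ← ih, Finset.sum_mul_sum]
    refine Finset.sum_congr rfl fun m _ => Finset.sum_congr rfl fun r hr => ?_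
    have hr' : r < b := Finset.mem_range.mp hr
    rw [s_rec b (b * m + r) hb]
    have h1 : (b * m + r) % b = r := by
      rw [Nat.mul_add_mod]; exact Nat.mod_eq_of_lt hr'
    have h2 : (b * m + r) / b = m := by
      rw [Nat.mul_add_div (by omega)]; simp [Nat.div_eq_of_lt hr']
    rw [h1, h2, pow_add, mul_comm]

/-- many binary digits equal to one are rare -/
theorem count_two (K T : ℕ) :
    (((Finset.range (2 ^ K)).filter (fun n => T ≤ s 2 n)).card : ℝ)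
      ≤ (9 / 4 : ℝ) ^ K * (4 / 5 : ℝ) ^ T := by
  have h := sum_pow 2 K le_rfl (5 / 4 : ℝ)
  have h9 : (∑ r ∈ Finset.range 2, (5 / 4 : ℝ) ^ r) = 9 / 4 := by
    simp [Finset.sum_range_succ]; norm_num
  rw [h9] at h
  have h1 : (((Finset.range (2 ^ K)).filter (fun n => T ≤ s 2 n)).card : ℝ) * (5 / 4 : ℝ) ^ T
      ≤ (9 / 4 : ℝ) ^ K := by
    rw [← h, ← nsmul_eq_mul, ← Finset.sum_const]
    calc ∑ _n ∈ (Finset.range (2 ^ K)).filter (fun n => T ≤ s 2 n), (5 / 4 : ℝ) ^ T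
        ≤ ∑ n ∈ (Finset.range (2 ^ K)).filter (fun n => T ≤ s 2 n), (5 / 4 : ℝ) ^ (s 2 n) := by
          refine Finset.sum_le_sum fun n hn => ?_
          exact pow_le_pow_right₀ (by norm_num) (Finset.mem_filter.mp hn).2
      _ ≤ ∑ n ∈ Finset.range (2 ^ K), (5 / 4 : ℝ) ^ (s 2 n) := by
          refine Finset.sum_le_sum_of_subset_of_nonneg (Finset.filter_subset _ _) ?_
          intro i _ _; positivity
  have h2 : (4 / 5 : ℝ) ^ T * (5 / 4 : ℝ) ^ T = 1 := by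
    rw [← mul_pow]; norm_num
  have h3 : (0 : ℝ) < (4 / 5 : ℝ) ^ T := by positivity
  calc (((Finset.range (2 ^ K)).filter (fun n => T ≤ s 2 n)).card : ℝ)
      = ((((Finset.range (2 ^ K)).filter (fun n => T ≤ s 2 n)).card : ℝ) * (5 / 4 : ℝ) ^ T)
          * (4 / 5 : ℝ) ^ T := by
        rw [mul_assoc, mul_comm ((5 / 4 : ℝ) ^ T), h2, mul_one]
    _ ≤ (9 / 4 : ℝ) ^ K * (4 / 5 : ℝ) ^ T := mul_le_mul_of_nonneg_right h1 h3.le

/-- small ternary sums of digits are rare -/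
theorem count_three (L T : ℕ) :
    (((Finset.range (3 ^ L)).filter (fun n => s 3 n ≤ T)).card : ℝ)
      ≤ (91 / 36 : ℝ) ^ L * (6 / 5 : ℝ) ^ T := by
  have h := sum_pow 3 L (by norm_num) (5 / 6 : ℝ)
  have h9 : (∑ r ∈ Finset.range 3, (5 / 6 : ℝ) ^ r) = 91 / 36 := by
    simp [Finset.sum_range_succ]; norm_num
  rw [h9] at h
  have h1 : (((Finset.range (3 ^ L)).filter (fun n => s 3 n ≤ T)).card : ℝ) * (5 / 6 : ℝ) ^ T
      ≤ (91 / 36 : ℝ) ^ L := by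
    rw [← h, ← nsmul_eq_mul, ← Finset.sum_const]
    calc ∑ _n ∈ (Finset.range (3 ^ L)).filter (fun n => s 3 n ≤ T), (5 / 6 : ℝ) ^ T
        ≤ ∑ n ∈ (Finset.range (3 ^ L)).filter (fun n => s 3 n ≤ T), (5 / 6 : ℝ) ^ (s 3 n) := by
          refine Finset.sum_le_sum fun n hn => ?_
          exact pow_le_pow_of_le_one (by norm_num) (by norm_num) (Finset.mem_filter.mp hn).2
      _ ≤ ∑ n ∈ Finset.range (3 ^ L), (5 / 6 : ℝ) ^ (s 3 n) := by
          refine Finset.sum_le_sum_of_subset_of_nonneg (Finset.filter_subset _ _) ?_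
          intro i _ _; positivity
  have h2 : (5 / 6 : ℝ) ^ T * (6 / 5 : ℝ) ^ T = 1 := by
    rw [← mul_pow]; norm_num
  have h3 : (0 : ℝ) < (6 / 5 : ℝ) ^ T := by positivity
  calc (((Finset.range (3 ^ L)).filter (fun n => s 3 n ≤ T)).card : ℝ)
      = ((((Finset.range (3 ^ L)).filter (fun n => s 3 n ≤ T)).card : ℝ) * (5 / 6 : ℝ) ^ T)
          * (6 / 5 : ℝ) ^ T := by
        rw [mul_assoc, h2, mul_one]
    _ ≤ (91 / 36 : ℝ) ^ L * (6 / 5 : ℝ) ^ T := mul_le_mul_of_nonneg_right h1 h3.le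

theorem coll_le (N K L T : ℕ) (hK : N ≤ 2 ^ K) (hL : N ≤ 3 ^ L) :
    (coll N : ℝ) ≤ (9 / 4 : ℝ) ^ K * (4 / 5 : ℝ) ^ T + (91 / 36 : ℝ) ^ L * (6 / 5 : ℝ) ^ T := by
  have h : coll N ≤ ((Finset.range (2 ^ K)).filter (fun n => T ≤ s 2 n)).card
      + ((Finset.range (3 ^ L)).filter (fun n => s 3 n ≤ T)).card := by
    unfold coll
    refine le_trans (Finset.card_le_card ?_) (Finset.card_union_le _ _)
    intro n hn
    rw [Finset.mem_filter, Finset.mem_range] at hn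
    rw [Finset.mem_union, Finset.mem_filter, Finset.mem_filter, Finset.mem_range,
      Finset.mem_range]
    rcases le_total T (s 2 n) with h | h
    · exact Or.inl ⟨by omega, h⟩
    · exact Or.inr ⟨by omega, by omega⟩
  have h' : (coll N : ℝ) ≤ (((Finset.range (2 ^ K)).filter (fun n => T ≤ s 2 n)).card : ℝ)
      + (((Finset.range (3 ^ L)).filter (fun n => s 3 n ≤ T)).card : ℝ) := by
    exact_mod_cast h
  exact h'.trans (add_le_add (count_two K T) (count_three L T))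

theorem num_one : (9 / 4 : ℝ) * (4 / 5 : ℝ) ^ (557 / 1000 : ℝ) ≤ (2 : ℝ) ^ (2477 / 2500 : ℝ) := by
  have hx : (0 : ℝ) ≤ (9 / 4 : ℝ) * (4 / 5 : ℝ) ^ (557 / 1000 : ℝ) := by positivity
  have hy : (0 : ℝ) ≤ (2 : ℝ) ^ (2477 / 2500 : ℝ) := by positivity
  refine le_of_pow_le_pow_left₀ (n := 5000) (by norm_num) hy ?_
  rw [mul_pow, ← Real.rpow_natCast ((4 / 5 : ℝ) ^ (557 / 1000 : ℝ)) 5000,
    ← Real.rpow_mul (by norm_num), ← Real.rpow_natCast ((2 : ℝ) ^ (2477 / 2500 : ℝ)) 5000,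
    ← Real.rpow_mul (by norm_num)]
  have e1 : (557 / 1000 : ℝ) * ((5000 : ℕ) : ℝ) = ((2785 : ℕ) : ℝ) := by norm_num
  have e2 : (2477 / 2500 : ℝ) * ((5000 : ℕ) : ℝ) = ((4954 : ℕ) : ℝ) := by norm_num
  rw [e1, e2, Real.rpow_natCast, Real.rpow_natCast, div_pow, div_pow, div_mul_div_comm,
    div_le_iff₀ (by positivity)]
  have : (9 : ℕ) ^ 5000 * 4 ^ 2785 ≤ 2 ^ 4954 * (4 ^ 5000 * 5 ^ 2785) := by
    decide +kernel
  exact_mod_cast this

theorem num_two : (91 / 36 : ℝ) ^ (631 / 1000 : ℝ) * (6 / 5 : ℝ) ^ (557 / 1000 : ℝ)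
    ≤ (2 : ℝ) ^ (2477 / 2500 : ℝ) := by
  have hx : (0 : ℝ) ≤ (91 / 36 : ℝ) ^ (631 / 1000 : ℝ) * (6 / 5 : ℝ) ^ (557 / 1000 : ℝ) := by
    positivity
  have hy : (0 : ℝ) ≤ (2 : ℝ) ^ (2477 / 2500 : ℝ) := by positivity
  refine le_of_pow_le_pow_left₀ (n := 5000) (by norm_num) hy ?_
  rw [mul_pow, ← Real.rpow_natCast ((6 / 5 : ℝ) ^ (557 / 1000 : ℝ)) 5000,
    ← Real.rpow_mul (by norm_num), ← Real.rpow_natCast ((2 : ℝ) ^ (2477 / 2500 : ℝ)) 5000,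
    ← Real.rpow_mul (by norm_num), ← Real.rpow_natCast ((91 / 36 : ℝ) ^ (631 / 1000 : ℝ)) 5000,
    ← Real.rpow_mul (by norm_num)]
  have e1 : (557 / 1000 : ℝ) * ((5000 : ℕ) : ℝ) = ((2785 : ℕ) : ℝ) := by norm_num
  have e2 : (2477 / 2500 : ℝ) * ((5000 : ℕ) : ℝ) = ((4954 : ℕ) : ℝ) := by norm_num
  have e3 : (631 / 1000 : ℝ) * ((5000 : ℕ) : ℝ) = ((3155 : ℕ) : ℝ) := by norm_num
  rw [e1, e2, e3, Real.rpow_natCast, Real.rpow_natCast, Real.rpow_natCast, div_pow, div_pow,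
    div_mul_div_comm, div_le_iff₀ (by positivity)]
  have : (91 : ℕ) ^ 3155 * 6 ^ 2785 ≤ 2 ^ 4954 * (36 ^ 3155 * 5 ^ 2785) := by
    decide +kernel
  exact_mod_cast this

theorem L_le (N K L : ℕ) (hK : N ≤ 2 ^ K) (hL : 3 ^ L < N) : 1000 * L ≤ 631 * K := by
  by_contra hc
  push Not at hc
  have h1 : 3 ^ L < 2 ^ K := lt_of_lt_of_le hL hK
  have h2 : (3 ^ L) ^ 1000 < (2 ^ K) ^ 1000 := Nat.pow_lt_pow_left h1 (by norm_num)
  have h3 : (2 : ℕ) ^ 1000 ≤ 3 ^ 631 := by decide +kernel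
  have h4 : ((2 : ℕ) ^ 1000) ^ K ≤ (3 ^ 631) ^ K := Nat.pow_le_pow_left h3 K
  have h5 : (3 : ℕ) ^ (631 * K) ≤ 3 ^ (1000 * L) := Nat.pow_le_pow_right (by norm_num) hc.le
  rw [← pow_mul, ← pow_mul] at h2 h4
  rw [mul_comm L, mul_comm K] at h2
  omega

theorem bound_one (K T : ℕ) (hT : 557 * K < 1000 * (T + 1)) :
    (9 / 4 : ℝ) ^ K * (4 / 5 : ℝ) ^ T ≤ 5 / 4 * ((2 : ℝ) ^ K) ^ (2477 / 2500 : ℝ) := by
  have h1 : (4 / 5 : ℝ) ^ T ≤ 5 / 4 * ((4 / 5 : ℝ) ^ (557 / 1000 : ℝ)) ^ K := by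
    rw [← Real.rpow_natCast ((4 / 5 : ℝ) ^ (557 / 1000 : ℝ)) K, ← Real.rpow_mul (by norm_num)]
    have h2 : (557 / 1000 : ℝ) * K ≤ (T : ℝ) + 1 := by
      have : (557 : ℝ) * K < 1000 * ((T : ℝ) + 1) := by exact_mod_cast hT
      linarith
    have h3 : (4 / 5 : ℝ) ^ ((T : ℝ) + 1) ≤ (4 / 5 : ℝ) ^ ((557 / 1000 : ℝ) * K) :=
      Real.rpow_le_rpow_of_exponent_ge (by norm_num) (by norm_num) h2
    rw [Real.rpow_add (by norm_num), Real.rpow_natCast, Real.rpow_one] at h3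
    linarith
  have h5 : ((2 : ℝ) ^ K) ^ (2477 / 2500 : ℝ) = ((2 : ℝ) ^ (2477 / 2500 : ℝ)) ^ K := by
    rw [← Real.rpow_natCast, ← Real.rpow_natCast, ← Real.rpow_mul (by norm_num),
      ← Real.rpow_mul (by norm_num), mul_comm]
  calc (9 / 4 : ℝ) ^ K * (4 / 5 : ℝ) ^ T
      ≤ (9 / 4 : ℝ) ^ K * (5 / 4 * ((4 / 5 : ℝ) ^ (557 / 1000 : ℝ)) ^ K) := by
        exact mul_le_mul_of_nonneg_left h1 (by positivity)
    _ = 5 / 4 * ((9 / 4 : ℝ) * (4 / 5 : ℝ) ^ (557 / 1000 : ℝ)) ^ K := by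
        rw [mul_pow]; ring
    _ ≤ 5 / 4 * ((2 : ℝ) ^ (2477 / 2500 : ℝ)) ^ K := by
        have := pow_le_pow_left₀ (by positivity) num_one K
        linarith
    _ = 5 / 4 * ((2 : ℝ) ^ K) ^ (2477 / 2500 : ℝ) := by rw [h5]

theorem bound_two (K L T : ℕ) (hT : 1000 * T ≤ 557 * K) (hL : 1000 * L ≤ 631 * K) :
    (91 / 36 : ℝ) ^ (L + 1) * (6 / 5 : ℝ) ^ T
      ≤ 91 / 36 * ((2 : ℝ) ^ K) ^ (2477 / 2500 : ℝ) := by
  have h1 : (6 / 5 : ℝ) ^ T ≤ ((6 / 5 : ℝ) ^ (557 / 1000 : ℝ)) ^ K := by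
    rw [← Real.rpow_natCast ((6 / 5 : ℝ) ^ (557 / 1000 : ℝ)) K, ← Real.rpow_mul (by norm_num),
      ← Real.rpow_natCast]
    refine Real.rpow_le_rpow_of_exponent_le (by norm_num) ?_
    have : (1000 : ℝ) * T ≤ 557 * K := by exact_mod_cast hT
    linarith
  have h2 : (91 / 36 : ℝ) ^ L ≤ ((91 / 36 : ℝ) ^ (631 / 1000 : ℝ)) ^ K := by
    rw [← Real.rpow_natCast ((91 / 36 : ℝ) ^ (631 / 1000 : ℝ)) K, ← Real.rpow_mul (by norm_num),
      ← Real.rpow_natCast]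
    refine Real.rpow_le_rpow_of_exponent_le (by norm_num) ?_
    have : (1000 : ℝ) * L ≤ 631 * K := by exact_mod_cast hL
    linarith
  have h5 : ((2 : ℝ) ^ K) ^ (2477 / 2500 : ℝ) = ((2 : ℝ) ^ (2477 / 2500 : ℝ)) ^ K := by
    rw [← Real.rpow_natCast, ← Real.rpow_natCast, ← Real.rpow_mul (by norm_num),
      ← Real.rpow_mul (by norm_num), mul_comm]
  calc (91 / 36 : ℝ) ^ (L + 1) * (6 / 5 : ℝ) ^ T
      = 91 / 36 * ((91 / 36 : ℝ) ^ L * (6 / 5 : ℝ) ^ T) := by rw [pow_succ]; ring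
    _ ≤ 91 / 36 * (((91 / 36 : ℝ) ^ (631 / 1000 : ℝ)) ^ K
          * ((6 / 5 : ℝ) ^ (557 / 1000 : ℝ)) ^ K) := by
        refine mul_le_mul_of_nonneg_left ?_ (by norm_num)
        exact mul_le_mul h2 h1 (by positivity) (by positivity)
    _ = 91 / 36 * ((91 / 36 : ℝ) ^ (631 / 1000 : ℝ) * (6 / 5 : ℝ) ^ (557 / 1000 : ℝ)) ^ K := by
        rw [mul_pow]
    _ ≤ 91 / 36 * ((2 : ℝ) ^ (2477 / 2500 : ℝ)) ^ K := by
        have := pow_le_pow_left₀ (by positivity) num_two K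
        linarith
    _ = 91 / 36 * ((2 : ℝ) ^ K) ^ (2477 / 2500 : ℝ) := by rw [h5]

theorem coll_bound (N : ℕ) (hN : 2 ≤ N) :
    (coll N : ℝ) ≤ 8 * (N : ℝ) ^ (2477 / 2500 : ℝ) := by
  obtain ⟨K, hK⟩ : ∃ K, Nat.clog 2 N = K + 1 :=
    ⟨Nat.clog 2 N - 1, by have := Nat.clog_pos (b := 2) (by norm_num) hN; omega⟩
  obtain ⟨L, hL⟩ : ∃ L, Nat.clog 3 N = L + 1 :=
    ⟨Nat.clog 3 N - 1, by have := Nat.clog_pos (b := 3) (by norm_num) hN; omega⟩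
  have hK1 : N ≤ 2 ^ (K + 1) := hK ▸ Nat.le_pow_clog (by norm_num) N
  have hL1 : N ≤ 3 ^ (L + 1) := hL ▸ Nat.le_pow_clog (by norm_num) N
  have hK2 : 2 ^ K < N := by
    have := Nat.pow_pred_clog_lt_self (b := 2) (x := N) (by norm_num) (by omega)
    rw [hK] at this; simpa using this
  have hL2 : 3 ^ L < N := by
    have := Nat.pow_pred_clog_lt_self (b := 3) (x := N) (by norm_num) (by omega)
    rw [hL] at this; simpa using this
  have hLK := L_le N (K + 1) L hK1 hL2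
  have hT1 : 557 * (K + 1) < 1000 * (557 * (K + 1) / 1000 + 1) := by omega
  have hT2 : 1000 * (557 * (K + 1) / 1000) ≤ 557 * (K + 1) := by omega
  have h := coll_le N (K + 1) (L + 1) (557 * (K + 1) / 1000) hK1 hL1
  have b1 := bound_one (K + 1) _ hT1
  have b2 := bound_two (K + 1) L _ hT2 hLK
  have hN0 : (0 : ℝ) ≤ (N : ℝ) := Nat.cast_nonneg N
  have h2N : (2 : ℝ) ^ (K + 1) ≤ 2 * (N : ℝ) := by
    have : ((2 ^ K : ℕ) : ℝ) ≤ (N : ℝ) := by exact_mod_cast hK2.le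
    push_cast at this
    rw [pow_succ]; linarith
  have h3 : ((2 : ℝ) ^ (K + 1)) ^ (2477 / 2500 : ℝ) ≤ 2 * (N : ℝ) ^ (2477 / 2500 : ℝ) := by
    calc ((2 : ℝ) ^ (K + 1)) ^ (2477 / 2500 : ℝ) ≤ (2 * (N : ℝ)) ^ (2477 / 2500 : ℝ) :=
          Real.rpow_le_rpow (by positivity) h2N (by norm_num)
      _ = (2 : ℝ) ^ (2477 / 2500 : ℝ) * (N : ℝ) ^ (2477 / 2500 : ℝ) :=
          Real.mul_rpow (by norm_num) hN0
      _ ≤ 2 * (N : ℝ) ^ (2477 / 2500 : ℝ) := by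
          refine mul_le_mul_of_nonneg_right ?_ (Real.rpow_nonneg hN0 _)
          calc (2 : ℝ) ^ (2477 / 2500 : ℝ) ≤ (2 : ℝ) ^ (1 : ℝ) :=
                Real.rpow_le_rpow_of_exponent_le (by norm_num) (by norm_num)
            _ = 2 := Real.rpow_one 2
  have h4 : (0 : ℝ) ≤ (N : ℝ) ^ (2477 / 2500 : ℝ) := Real.rpow_nonneg hN0 _
  linarith

end UpperAux

open UpperAux in
theorem upper : ∀ᶠ N : ℕ in Filter.atTop, (coll N : ℝ) ≤ (N : ℝ) ^ (0.991 : ℝ) := by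
  have ht : Filter.Tendsto (fun N : ℕ => (N : ℝ) ^ (1 / 5000 : ℝ)) Filter.atTop Filter.atTop :=
    (tendsto_rpow_atTop (by norm_num)).comp tendsto_natCast_atTop_atTop
  filter_upwards [ht.eventually_ge_atTop 8, Filter.eventually_ge_atTop 2] with N h8 h2
  have hN : (0 : ℝ) < (N : ℝ) := by
    have : 0 < N := by omega
    exact_mod_cast this
  calc (coll N : ℝ) ≤ 8 * (N : ℝ) ^ (2477 / 2500 : ℝ) := coll_bound N h2
    _ ≤ (N : ℝ) ^ (1 / 5000 : ℝ) * (N : ℝ) ^ (2477 / 2500 : ℝ) :=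
        mul_le_mul_of_nonneg_right h8 (Real.rpow_nonneg hN.le _)
    _ = (N : ℝ) ^ (0.991 : ℝ) := by
        rw [← Real.rpow_add hN]; norm_num

end Pool.Agent.Helper36.DC
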